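import Mathlib
import Pool.Agent.H451.JB.Stm
import Pool.Graph.R_seed8.Y703.XL.Stm

/-!
# Project JR (helper451): the joint law of all the ranks

The projects JLM and JB (`Pool/Agent/H451/JLM`, `Pool/Agent/H451/JB`) give the probability that `k` systems
have only the trivial solutions. Here: the probability that the system number `j` has `3 ^ (ρ j + 1)`
solutions for all `j < k` tends to `∏ j, cr (ρ j)`, `cr r = c9 / ((3 - 1) (9 - 1) ⋯ (3 ^ r - 1))`, for every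
vector `ρ`.
-/

set_option autoImplicit false
set_option linter.unusedVariables false

open scoped Classical

namespace Pool.Agent.H451.JR

open Finset
open Pool.Agent.Y692.QS (Ei w nr toC)
open Pool.Agent.Y703.XK (prs ext c9)
open Pool.Agent.Y703.XL (cr)
open Pool.Agent.H451.JL (F In sw nW)
open Pool.Agent.H451.JLM (Sys pr NP wt nAw)

/-- the coefficients of the inversion formula for the rank `ρ` -/
noncomputable def muR (ρ d : ℕ) : ℝ :=
  (-1) ^ (d - ρ) * 3 ^ ((d - ρ).choose 2) * In ρ d / (In ρ ρ * In d d)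

/-- the truncated sums of the limits -/
noncomputable def sR (ρ t : ℕ) : ℝ := ∑ d ∈ range (t + 1), muR ρ d * 3 ^ (d.choose 2)

/-- the limits of the errors -/
noncomputable def eR (ρ t : ℕ) : ℝ := |muR ρ (t + 1)| * 3 ^ ((t + 1).choose 2)

/-- JR-Q: the truncated inversion formula (`Pool.Agent.H451.JL.S_Q` is the case `ρ = 0`, see
`Pool/Agent/H451/JL/Q.lean`).

Proof. `In d r = 0` for `r < d`, so for `r < ρ` both sides are zero (`In ρ d = 0` for `d < ρ`). Let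
`r ≥ ρ`. With the Gaussian binomial coefficients `[r, d] = In d r / In d d` one has
`[r, d] [d, ρ] = [r, ρ] [r - ρ, d - ρ]` for `d ≥ ρ` (from `In d r = In ρ r * 3 ^ (ρ (d - ρ)) In (d - ρ) (r - ρ)`),
so `muR ρ d * In d r = [r, ρ] * (mu (d - ρ) * In (d - ρ) (r - ρ))` for `d ≥ ρ` and `0` for `d < ρ`, and the
statement is `[r, ρ]` times `Pool.Agent.H451.JL.t_Q` for `t - ρ`, `r - ρ` (`[r, ρ] = 1` for `r = ρ`). -/
def S_QR : Prop := ∀ ρ t r : ℕ, ρ ≤ t →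
  |(if r = ρ then 1 else 0) - ∑ d ∈ range (t + 1), muR ρ d * In d r| ≤ |muR ρ (t + 1)| * In (t + 1) r

/-- JR-E: the errors tend to zero.

Proof. `In ρ n ≤ 3 ^ (ρ n)`, `In n n ≥ 3 ^ (n ^ 2) / 2` (see `Pool.Agent.H451.JL.t_E`), so with `n = t + 1 ≥ ρ`:
`eR ρ t ≤ 2 / In ρ ρ * 3 ^ (C(n - ρ, 2) + C(n, 2) + ρ n - n ^ 2) = 2 / In ρ ρ * 3 ^ (C(ρ + 1, 2) - n)`. -/
def S_ER : Prop := ∀ ρ : ℕ, Filter.Tendsto (eR ρ) Filter.atTop (nhds 0)

/-- JR-TR: the truncation (adapt `Pool.Agent.H451.JL.t_TR` in `Pool/Agent/H451/JL/TR.lean`).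

Proof. Put `f_j = 1 [r_j = ρ_j]`, `P_j = ∑_{d ≤ t} muR ρ_j d * In d r_j`, `e_j = |muR ρ_j (t + 1)| In (t + 1) r_j ≥ 0`;
`|f_j - P_j| ≤ e_j` by `S_QR` and `|f_j| ≤ 1`. So `|∏ f_j - ∏ P_j| ≤ ∏ (1 + e_j) - 1`. Take the mean over
`ω`: the mean of `∏ P_j` differs from `∏ sR ρ_j t` by at most `C₁ δ`, and the mean of `∏ (1 + e_j)` from
`∏ (1 + eR ρ_j t)` by at most `C₂ δ` (the coefficients depend now on `j`). -/
def S_TRR : Prop := ∀ (k t : ℕ) (ρ : Fin k → ℕ), (∀ j, ρ j ≤ t) → ∃ C : ℝ, 0 ≤ C ∧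
  ∀ (Ω : Type) [Fintype Ω] (r : Ω → Fin k → ℕ) (δ : ℝ), 0 < Fintype.card Ω → 0 ≤ δ →
  (∀ d : Fin k → ℕ, (∀ j, d j ≤ t + 1) → |(∑ ω, ∏ j, In (d j) (r ω j)) / (Fintype.card Ω : ℝ) -
    ∏ j, (3 : ℝ) ^ ((d j).choose 2)| ≤ δ) →
  |((univ.filter fun ω => ∀ j, r ω j = ρ j).card : ℝ) / (Fintype.card Ω : ℝ) - ∏ j, sR (ρ j) t| ≤
    ∏ j, (1 + eR (ρ j) t) - 1 + C * δ

/-- JR-C: the limit (adapt `Pool.Agent.H451.JL.t_C` in `Pool/Agent/H451/JL/C.lean`). Apply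
`Pool.Agent.H451.JL.S_EX` (`t_EX` in `Pool/Agent/H451/JL/EX.lean`, see also `JL/Asm.lean`) and `S_TRR` to
`k = 1` and the system `L = V = Fin n → F`, `y = id`, `b = 0`, whose space of the solutions is the radical,
and compare with `Pool.Agent.Y703.XL.S_LIM` for the dimension `ρ`; let `n → ∞`. -/
def S_CR : Prop := ∀ ρ t : ℕ, ρ ≤ t → |sR ρ t - cr ρ| ≤ eR ρ t

/-- **JR-JR**: the joint law of the ranks.

Proof. Adapt `Pool.Agent.H451.JLM.t_JLM` (`Pool/Agent/H451/JLM/JLM.lean`, everything there is reusable):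
`S_TRR`, `S_CR`, `S_ER` in place of `S_TR`, `S_C`, `S_E`; choose `t` with `ρ j ≤ t` for all `j` and
`∏ (1 + eR (ρ j) t) - 1 + |∏ sR (ρ j) t - ∏ cr (ρ j)| ≤ ε / 2`. The dimension of `R_j(α)` is at least `1`, so
`|R_j(α)| = 3 ^ (ρ j + 1)` iff `finrank R_j(α) - 1 = ρ j`. -/
def S_JR : Prop := ∀ (k M : ℕ) (W : Fin k → Fin M → F) (ρ : Fin k → ℕ), NP W → ∀ ε : ℝ, 0 < ε →
  ∃ N : ℕ, ∀ (J : Type) [Fintype J] [LinearOrder J] (μ : J → Fin M) (m₀ : ℕ) (s : Sys J k),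
  s.OK (wt W μ) m₀ → (∀ m, N * (m₀ + 1) ≤ (univ.filter fun l => μ l = m).card) →
  |pr (fun α => ∀ j, Nat.card (s.R (wt W μ) j α) = 3 ^ (ρ j + 1)) - ∏ j, cr (ρ j)| ≤ ε

/-- JR-SYS: block systems (the proof is that of `Pool.Agent.H451.JLM.t_SYS` in
`Pool/Agent/H451/JLM/SYS.lean`, with `S_JR` in place of `S_JLM`). -/
def S_SYS : Prop := ∀ (k M : ℕ) (W : Fin k → Fin M → F) (ρ : Fin k → ℕ), NP W → ∀ ε : ℝ, 0 < ε →
  ∃ N : ℕ, ∀ (U : Fin k → Type) [∀ j, Fintype (U j)] (J : Type) [Fintype J] [LinearOrder J]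
  (μ : J → Fin M) (A : ∀ j, U j → U j → F) (B : ∀ j, U j → J → F) (m₀ : ℕ),
  (∀ j u v, A j u v = A j v u) → (∀ j u l, W j (μ l) = 0 → B j u l = 0) →
  (∀ j, Fintype.card (U j) ≤ m₀) →
  (∀ j (v : U j → F), (∃ u, v u ≠ 0) → ∃ l, ∑ u, v u * B j u l ≠ 0) →
  (∀ m, N * (m₀ + 1) ≤ (univ.filter fun l => μ l = m).card) →
  |((univ.filter fun α : prs J → F => ∀ j, nAw (A j) (B j) (wt W μ j) α = 3 ^ (ρ j + 1)).card : ℝ) /
      3 ^ (prs J).card - ∏ j, cr (ρ j)| ≤ ε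

/-- the numbers of the solutions are `3 ^ (ρ j + 1)` -/
def GR {k : ℕ} (ρ : Fin k → ℕ) (w : Fin k → Ei → F) (S : Finset Ei) : Prop :=
  ∀ j, nW (w j) S = 3 ^ (ρ j + 1)

/-- JR-SUM: the limits are the probabilities of a distribution.

Proof. From `Pool.Agent.Y703.XL.S_LIM` (proved in the library, see `Pool/Agent/H451/JL/Asm.lean` for the
name): for `V = Fin n → F` the numbers `fr (nR S = 3 ^ r)`, `r ≤ n`, add up to `1`, and each differs from `cr r` by at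
most `3 ^ r / 3 ^ n`; the sum over `r ≤ R` of `cr r` is `≤ 1` (let `n → ∞`), and
`∑_{r ≤ R} cr r ≥ 1 - ∑_{r > R} fr (nR S = 3 ^ r) - o(1)`, where by the mean of `nR` (the mean number of elements of
the radical is at most `2`: a nonzero `x` is in the radical with probability `3 ^ (-n)`; or use the moments of
`Pool.Agent.H451.JL`) the probability that `nR S ≥ 3 ^ (R + 1)` is at most `2 / 3 ^ (R + 1)`. Alternatively from the
identity `∑_r q ^ (r (r + 1) / 2) / ((1 - q) ⋯ (1 - q ^ r)) = ∏ (1 + q ^ i)`, `q = 1 / 3`. -/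
def S_SUM : Prop := HasSum cr 1

end Pool.Agent.H451.JR
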