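import Mathlib
import Pool.Agent.H451.JR.Stm
import Pool.Agent.H451.JL.C

/-!
# JR-C (helper628)
-/

set_option autoImplicit false

open scoped Classical

namespace Pool.Agent.H451.JR

open Finset
open Pool.Agent.Y759.CX (fr)
open Pool.Agent.Y85.XK (Sy)
open Pool.Agent.Y703.XL (cr)
open Pool.Agent.H451.JL (In F Sys)

namespace C

/-- the bound for given `k`, `t` -/
lemma key (hEX : Pool.Agent.H451.JL.S_EX) (k t : ℕ) (C : ℝ) (ρ : Fin k → ℕ)
    (hTR : ∀ (Ω : Type) [Fintype Ω] (r : Ω → Fin k → ℕ)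
      (δ : ℝ), 0 < Fintype.card Ω → 0 ≤ δ →
      (∀ d : Fin k → ℕ, (∀ j, d j ≤ t + 1) →
        |(∑ ω, ∏ j, In (d j) (r ω j)) / (Fintype.card Ω : ℝ) -
        ∏ j, (3 : ℝ) ^ ((d j).choose 2)| ≤ δ) →
      |((univ.filter fun ω => ∀ j, r ω j = ρ j).card : ℝ) / (Fintype.card Ω : ℝ) -
        ∏ j, sR (ρ j) t| ≤ ∏ j, (1 + eR (ρ j) t) - 1 + C * δ)
    (V : Type) [AddCommGroup V] [Module F V] [Finite V] (N : ℕ) (s : Sys V k) (hs : s.OK N) :
    |fr (fun S : Sy V => ∀ j, Module.finrank F (s.R j S) = ρ j) - ∏ j, sR (ρ j) t| ≤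
      ∏ j, (1 + eR (ρ j) t) - 1 + C * (3 ^ (3 * (k * (t + 1)) ^ 2 + 2) / 3 ^ N) := by
  let hF : Fintype (Sy V) := Fintype.ofFinite _
  have h := hTR (Sy V) (fun S j => Module.finrank F (s.R j S))
    (3 ^ (3 * (k * (t + 1)) ^ 2 + 2) / 3 ^ N) Fintype.card_pos (by positivity) (by
      intro d hd
      have h1 := hEX V k N s d hs hF
      rw [le_div_iff₀ (by positivity)]
      refine h1.trans ?_
      refine pow_le_pow_right₀ (by norm_num) ?_
      have h2 : ∑ j, d j ≤ k * (t + 1) := by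
        calc ∑ j, d j ≤ ∑ _j : Fin k, (t + 1) := Finset.sum_le_sum fun j _ => hd j
          _ = k * (t + 1) := by simp
      have h3 : (∑ j, d j) ^ 2 ≤ (k * (t + 1)) ^ 2 := Nat.pow_le_pow_left h2 2
      omega)
  have e : fr (fun S : Sy V => ∀ j, Module.finrank F (s.R j S) = ρ j) =
      ((univ.filter fun S : Sy V => ∀ j, Module.finrank F (s.R j S) = ρ j).card : ℝ) /
        (Fintype.card (Sy V) : ℝ) := by
    unfold fr
    rw [Nat.card_eq_fintype_card, Nat.card_eq_fintype_card, Fintype.card_subtype]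
  rw [e]
  exact h

lemma mem_iff {n : ℕ} (S : Sy (Fin n → F)) (p : (Pool.Agent.H451.JL.C.rs (Fin n → F)).L 0) :
    p ∈ (Pool.Agent.H451.JL.C.rs (Fin n → F)).R 0 S ↔ ∀ y, S.1 p y = 0 := by
  rw [Pool.Agent.H451.JL.C.mem_R]
  constructor
  · intro h y
    have := congrArg (fun f : (Fin n → F) →ₗ[F] F => f y) h
    exact this
  · intro h
    exact LinearMap.ext h

lemma card_eq {n : ℕ} (S : Sy (Fin n → F)) :
    Pool.Agent.Y703.XL.nR S =
      3 ^ Module.finrank F ((Pool.Agent.H451.JL.C.rs (Fin n → F)).R 0 S) := by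
  have h1 : Pool.Agent.Y703.XL.nR S =
      Nat.card ((Pool.Agent.H451.JL.C.rs (Fin n → F)).R 0 S) := by
    unfold Pool.Agent.Y703.XL.nR
    refine Nat.card_congr ?_
    exact
      { toFun := fun p => ⟨p.1, (mem_iff S p.1).2 p.2⟩
        invFun := fun p => ⟨p.1, (mem_iff S p.1).1 p.2⟩
        left_inv := fun p => rfl
        right_inv := fun p => rfl }
  have : Module.Finite F ((Pool.Agent.H451.JL.C.rs (Fin n → F)).L 0) := Module.Finite.of_finite
  rw [h1, Module.natCard_eq_pow_finrank (K := F)]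
  congr 1
  rw [Nat.card_eq_fintype_card, ZMod.card]

end C

open C

theorem t_CR : Pool.Agent.H451.JL.S_EX → S_TRR → Pool.Agent.Y703.XL.S_LIM → S_CR := by
  intro hEX hTR hLIM ρ t hρ
  obtain ⟨C, hC, hT⟩ := hTR 1 t (fun _ => ρ) (fun _ => hρ)
  have hb : ∀ n : ℕ, |sR ρ t - cr ρ| ≤
      eR ρ t + (C * 3 ^ (3 * (1 * (t + 1)) ^ 2 + 2) + 3 ^ ρ) * (1 / 3 : ℝ) ^ n := by
    intro n
    have h1 := key hEX 1 t C (fun _ => ρ) hT (Fin n → F) n (Pool.Agent.H451.JL.C.rs (Fin n → F))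
      (Pool.Agent.H451.JL.C.rs_OK n)
    have h2 := hLIM (Fin n → F) ρ
    have e1 : fr (fun S : Sy (Fin n → F) => ∀ j,
        Module.finrank F ((Pool.Agent.H451.JL.C.rs (Fin n → F)).R j S) = ρ) =
        fr (fun S : Sy (Fin n → F) => Pool.Agent.Y703.XL.nR S = 3 ^ ρ) := by
      congr 1
      ext S
      rw [card_eq, Fin.forall_fin_one]
      exact ⟨fun h => by rw [h], fun h => Nat.pow_right_injective (le_refl 2 |>.trans (by norm_num)) h⟩
    have e3 : Module.finrank (ZMod 3) (Fin n → F) = n := by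
      simp
    rw [e1, Fin.prod_univ_one, Fin.prod_univ_one, add_sub_cancel_left] at h1
    rw [e3] at h2
    have h3 : |sR ρ t - cr ρ| ≤
        |fr (fun S : Sy (Fin n → F) => Pool.Agent.Y703.XL.nR S = 3 ^ ρ) - sR ρ t| +
        |fr (fun S : Sy (Fin n → F) => Pool.Agent.Y703.XL.nR S = 3 ^ ρ) - cr ρ| := by
      have := abs_sub_le (sR ρ t)
        (fr (fun S : Sy (Fin n → F) => Pool.Agent.Y703.XL.nR S = 3 ^ ρ)) (cr ρ)
      rwa [abs_sub_comm (sR ρ t) (fr _)] at this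
    have h4 : (C * 3 ^ (3 * (1 * (t + 1)) ^ 2 + 2) + 3 ^ ρ) * (1 / 3 : ℝ) ^ n =
        C * (3 ^ (3 * (1 * (t + 1)) ^ 2 + 2) / 3 ^ n) + 3 ^ ρ * (1 / 3 : ℝ) ^ n := by
      rw [div_pow, one_pow]
      ring
    rw [h4]
    exact h3.trans ((add_le_add h1 h2).trans (le_of_eq (by ring)))
  have hl : Filter.Tendsto (fun n : ℕ => eR ρ t + (C * 3 ^ (3 * (1 * (t + 1)) ^ 2 + 2) + 3 ^ ρ) *
      (1 / 3 : ℝ) ^ n) Filter.atTop
      (nhds (eR ρ t + (C * 3 ^ (3 * (1 * (t + 1)) ^ 2 + 2) + 3 ^ ρ) * 0)) :=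
    Filter.Tendsto.const_add _ (Filter.Tendsto.const_mul _
      (tendsto_pow_atTop_nhds_zero_of_lt_one (by norm_num) (by norm_num)))
  rw [mul_zero, add_zero] at hl
  exact ge_of_tendsto' hl hb

end Pool.Agent.H451.JR
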