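import Mathlib
import Pool.Agent.H451.JR.Stm

/-!
# Project JR: the statements for the tuples of sets, for an arbitrary property `P` of the weighted sets
-/

set_option autoImplicit false
set_option linter.unusedVariables false

open scoped Classical

namespace Pool.Agent.H451.JR

open Finset
open Pool.Agent.Y692.QS (Ei w nr toC)
open Pool.Agent.Y715.T.Rec (cs)
open Pool.Agent.Y715.T.RecG (Pq)
open Pool.Agent.Y699.E (ez nrm QB)
open Pool.Agent.Y703.XK (SS HB prs S_BIL)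
open Pool.Agent.H451.JL (F sw nW)
open Pool.Agent.H451.JB

/-- the count in a box for the property `P` with the probability `cc` -/
def BXG {k M : ℕ} (P : (Fin k → Ei → F) → Finset Ei → Prop) (cc : ℝ) (W : Fin k → Fin M → F) (V : ℕ)
    (ε : ℝ) : Prop :=
  ∀ (ι : Type) [Fintype ι] [LinearOrder ι]
  (C : ι → Finset Ei) (ν : ι → Fin M) (X : ι → ℕ) (κ : ℝ) (S₀ : Finset Ei) (w₀ : Fin k → Ei → F),
  0 ≤ κ → (∀ i, (C i).card ≤ X i) → HB C X κ → (∀ u ∈ S₀, Pq u) →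
  (∀ i, ∀ π ∈ C i, Pq π ∧ π ∉ S₀) → (∀ i l, i ≠ l → Disjoint (C i) (C l)) →
  |(((Fintype.piFinset C).filter fun p => NdP V ν S₀ p ∧
        P (wB W ν w₀ S₀ p) (S₀ ∪ univ.image p)).card : ℝ) -
      cc * (((Fintype.piFinset C).filter fun p => NdP V ν S₀ p).card : ℝ)| ≤
    ε * (((Fintype.piFinset C).filter fun p => NdP V ν S₀ p).card : ℝ) +
    3 ^ (S₀.card * Fintype.card ι + (prs ι).card) * (κ * ∏ j, (X j : ℝ))

/-- the sum over the boxes -/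
def KEG {k M : ℕ} (P : (Fin k → Ei → F) → Finset Ei → Prop) (cc : ℝ) (W : Fin k → Fin M → F)
    (R : Set (Fin M → ℕ)) (V : ℕ) (ε : ℝ) : Prop :=
  ∃ C : ℝ, 1 ≤ C ∧
  ∀ (X z H K N : ℕ) (κ : ℝ), 1 ≤ X → 1 ≤ H → 1 ≤ z → 0 ≤ κ → C ≤ κ ^ 24 * z →
  (H : ℝ) * Real.log X < N →
  |(((RT M X z H K).filter fun S => (CondT R S ∧ NdT V z S) ∧ P (wT W S) (UN S)).card : ℝ) -
      cc * (((RT M X z H K).filter fun S => CondT R S ∧ NdT V z S).card : ℝ)| ≤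
    ε * ((RT M X z H K).card : ℝ) +
    3 ^ (9 * (M * K) ^ 2 + 9 * M) * κ * ((9 * N + 9 : ℝ) ^ K * (X * (1 + Real.log X))) ^ M

/-- the sum over the boxes -/
def S_KEY : Prop := S_BIL → ∀ (k M : ℕ) (P : (Fin k → Ei → F) → Finset Ei → Prop) (cc : ℝ)
  (W : Fin k → Fin M → F) (R : Set (Fin M → ℕ)) (V : ℕ) (ε : ℝ), 0 ≤ ε → 1 ≤ V →
  BXG P cc W V ε → KEG P cc W R V ε

/-- the limit -/
def S_DQ : Prop := ∀ (k M : ℕ) (P : (Fin k → Ei → F) → Finset Ei → Prop) (cc : ℝ)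
  (W : Fin k → Fin M → F) (R : Set (Fin M → ℕ)), 0 ≤ cc → cc ≤ 1 →
  (∀ ε : ℝ, 0 < ε → ∃ V : ℕ, 1 ≤ V ∧ BXG P cc W V ε) →
  (∃ r ∈ R, ∀ m, r m = 4 ∨ r m = 7) →
  (∃ (c : ℝ) (X₀ : ℕ), 0 < c ∧ ∀ X : ℕ, X₀ ≤ X →
    c * (X : ℝ) ^ M ≤ (((TT M X).filter (CondT R)).card : ℝ)) ∧
  Filter.Tendsto (fun X : ℕ =>
    (((TT M X).filter fun S => CondT R S ∧ P (wT W S) (UN S)).card : ℝ) /
    (((TT M X).filter (CondT R)).card : ℝ)) Filter.atTop (nhds cc)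

end Pool.Agent.H451.JR
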