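import Mathlib
import Pool.Agent.H451.JR.Gen
import Pool.Agent.H451.JB.DQ

/-!
# Project JR: the asymptotics for tuples, for an arbitrary property (from `Pool.Agent.H451.JB.t_DQ`)
-/

set_option autoImplicit false
set_option linter.unusedVariables false

open scoped Classical
open Finset Filter

namespace Pool.Agent.H451.JR

open Pool.Agent.Y692.QS (Ei w nr toC)
open Pool.Agent.Y715.T.Rec (cs)
open Pool.Agent.Y715.T.RecG (Pq)
open Pool.Agent.Y699.E (nrm QB)
open Pool.Agent.Y703.CX (jj XX eL zz kk eL_tendsto logX_eq rpow_eL HH NN ev_eL one_le_exp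
  HH_ge HH_le HH_pos kk_ge kk_le X_pos one_add_log lin_le zz_ge zz_pos)
open Pool.Agent.Y703.CQ (Sml sml_of sml_add)
open Pool.Agent.Y703.XK (Nd SS RR HB prs ext c9 sm la bl S_BIL S_EQ S_CNT S_C9
  sml_eps sml_many sml_cut sml_coll kap kap_nonneg kap_pow kap_le CntP log_three)
open Pool.Agent.H451.JL (F sw nW)
open Pool.Agent.H451.JLM (NP)
open Pool.Agent.H451.JB hiding S_KEY S_DQ S_BOX t_DQ

open JB.DQp in
theorem t_DQ (hBIL : S_BIL) (hKEY : S_KEY) (hCNT : S_CNT) (hCOL : S_COL)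
    (hND : S_ND) (hFEC : Pool.Agent.H451.JLM.S_FEC) (hLo : S_LOW) : S_DQ := by
  intro k M P₀ cc W R hc0 hc1 hBOX hR
  obtain ⟨c, X₀, hc, hlow⟩ := low hLo R hR
  refine ⟨⟨c, X₀, hc, hlow⟩, ?_⟩
  obtain ⟨D, hD⟩ := hCNT
  have hD1 := hD.one
  rw [Metric.tendsto_nhds]
  intro ε hε
  have hDM : 0 < D ^ M := by positivity
  obtain ⟨η, hη⟩ : ∃ η : ℝ, η = c * ε / (4 * D ^ M) := ⟨_, rfl⟩
  have hη0 : 0 < η := by rw [hη]; positivity
  obtain ⟨V, hV1, hV⟩ := hBOX η hη0
  obtain ⟨C, hC1, hkey⟩ := hKEY hBIL k M P₀ cc W R V η hη0.le hV1 hV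
  obtain ⟨δ, hδ⟩ : ∃ δ : ℝ, δ = c * ε / (4 * D ^ M * (4 * M + M * M + 1)) := ⟨_, rfl⟩
  have hM0 : (0 : ℝ) ≤ M := Nat.cast_nonneg M
  have hδ0 : 0 < δ := by rw [hδ]; positivity
  have s1 := sml_many hD δ hδ0
  have s2 := sml_cut hD δ hδ0
  have s3 := sml_coll hD δ hδ0
  have s4 := sml_eps (hFEC V) δ hδ0
  obtain ⟨X₁, s5⟩ := hCOL δ hδ0
  obtain ⟨X₂, s6⟩ := hND M V δ hδ0
  have s7 := main_err hC1 M (δ := c * ε / 4) (by positivity)
  filter_upwards [s1, s2, s3, s4, s7, ev_eL 1, eventually_ge_atTop X₀, eventually_ge_atTop X₁,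
    eventually_ge_atTop X₂] with X t1 t2 t3 t4 t7 hl hX0 hX1 hX2
  rw [neg_zero, zero_mul, Real.exp_zero, mul_one] at t1 t2 t3 t4
  have t5 := s5 X hX1
  have t6 := s6 X hX2
  have hl0 : 0 < eL X := by linarith
  have hlo := hlow X hX0
  have hXp := X_pos hl0
  have hXp' : (0 : ℝ) < X := by exact_mod_cast hXp
  have hN : (HH X : ℝ) * Real.log X < NN X := by
    unfold NN
    push_cast
    exact Nat.lt_floor_add_one _
  have hSSc : ((SS X).card : ℝ) ≤ D * X := hD.all X hXp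
  have hXD : (X : ℝ) ≤ D * X := by nlinarith
  have hXM : 0 < (X : ℝ) ^ M := by positivity
  have hβM : (D * (X : ℝ)) ^ M = D ^ M * (X : ℝ) ^ M := mul_pow _ _ _
  have hRTc : ((RT M X (zz X) (HH X) (kk X)).card : ℝ) ≤ (D * X) ^ M := by
    have h1 : RT M X (zz X) (HH X) (kk X) ⊆ TT M X := by
      intro S hS
      unfold RT at hS
      rw [mem_filter, Fintype.mem_piFinset] at hS
      unfold TT
      rw [Fintype.mem_piFinset]
      intro m
      have h2 := hS.1 m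
      unfold RR at h2
      rw [mem_filter] at h2
      exact h2.1
    calc ((RT M X (zz X) (HH X) (kk X)).card : ℝ) ≤ ((TT M X).card : ℝ) := by
          exact_mod_cast card_le_card h1
      _ = ((SS X).card : ℝ) ^ M := by rw [card_TT]; push_cast; rfl
      _ ≤ (D * X) ^ M := by gcongr
  have hmain := hkey X (zz X) (HH X) (kk X) (NN X) (kap C X) hXp (HH_pos hl0) (zz_pos hl)
    (kap_nonneg hC1 X) (kap_pow hC1 hl) hN
  set A := (TT M X).filter (CondT R) with hA
  set B := (RT M X (zz X) (HH X) (kk X)).filter fun S => CondT R S ∧ NdT V (zz X) S with hB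
  have hBG : (RT M X (zz X) (HH X) (kk X)).filter
      (fun S => (CondT R S ∧ NdT V (zz X) S) ∧ P₀ (wT W S) (UN S)) =
      B.filter fun S => P₀ (wT W S) (UN S) := by
    rw [hB, filter_filter]
  rw [hBG] at hmain
  have hBA : B ⊆ A := by
    intro S hS
    rw [hB, mem_filter] at hS
    rw [hA, mem_filter]
    refine ⟨?_, hS.2.1⟩
    have h1 := hS.1
    unfold RT at h1
    rw [mem_filter, Fintype.mem_piFinset] at h1
    unfold TT
    rw [Fintype.mem_piFinset]
    intro m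
    have h2 := h1.1 m
    unfold RR at h2
    rw [mem_filter] at h2
    exact h2.1
  have hcmp := cmpG (fun S => P₀ (wT W S) (UN S)) B A hBA cc hc0 hc1
  have hMG : ((TT M X).filter fun S => CondT R S ∧ P₀ (wT W S) (UN S)) =
      A.filter fun S => P₀ (wT W S) (UN S) := by
    rw [hA, filter_filter]
  -- the exceptional tuples
  have hβ0 : 0 ≤ D * (X : ℝ) := by positivity
  have hδβ : δ * X ≤ δ * (D * X) := mul_le_mul_of_nonneg_left hXD hδ0.le
  have hX2 : δ * (X : ℝ) ^ 2 ≤ δ * (D * X) ^ 2 := by gcongr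
  have b6 : δ * (X : ℝ) ^ M ≤ δ * (D * X) ^ M := by gcongr
  have hout : ((A \ B).card : ℝ) ≤ (4 * M + M * M + 1) * (δ * (D * X) ^ M) := by
    refine (card_six (out_sub R X (zz X) (HH X) (kk X) V hV1)).trans ?_
    have e : (4 * (M : ℝ) + M * M + 1) * (δ * (D * X) ^ M) =
        M * (δ * (D * X) ^ M) + M * (δ * (D * X) ^ M) + M * (δ * (D * X) ^ M) +
        M * (δ * (D * X) ^ M) + M * (M * (δ * (D * X) ^ M)) + δ * (D * X) ^ M := by ring
    rw [e]
    exact add_le_add (add_le_add (add_le_add (add_le_add (add_le_add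
      (bd_one (fun s => kk X < s.card) hSSc hδ0.le (t1.trans hδβ))
      (bd_one (fun s => s.card ≤ kk X ∧
        X < (∏ π ∈ sm (zz X) s, nrm π) * ∏ π ∈ la (zz X) s, XX (HH X) (bl (HH X) π))
        hSSc hδ0.le (t2.trans hδβ)))
      (bd_one (fun s => ¬ Set.InjOn (bl (HH X)) (la (zz X) s : Set Ei))
        hSSc hδ0.le (t3.trans hδβ)))
      (bd_one (fun s => s.card ≤ kk X ∧ (la (zz X) s).card ≤
        V * ((sm (zz X) s).card + 1)) hSSc hδ0.le (t4.trans hδβ)))
      (bd_two (fun s s' => ∃ π ∈ la (zz X) s, ∃ π' ∈ la (zz X) s',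
        bl (HH X) π = bl (HH X) π') hSSc hδ0.le (t5.trans hX2)))
      (t6.trans b6)
  have hKc : (0 : ℝ) < 4 * M + M * M + 1 := by positivity
  have hout2 : ((A \ B).card : ℝ) ≤ c * ε / 4 * (X : ℝ) ^ M := by
    refine hout.trans (le_of_eq ?_)
    rw [hδ, hβM]
    field_simp
  have hη2 : η * ((RT M X (zz X) (HH X) (kk X)).card : ℝ) ≤ c * ε / 4 * (X : ℝ) ^ M := by
    refine (mul_le_mul_of_nonneg_left hRTc hη0.le).trans (le_of_eq ?_)
    rw [hη, hβM]
    field_simp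
  rw [Real.dist_eq, hMG]
  have hApos : (0 : ℝ) < (A.card : ℝ) := lt_of_lt_of_le (by positivity) hlo
  have e3 : ((A.filter fun S => P₀ (wT W S) (UN S)).card : ℝ) / (A.card : ℝ) - cc =
      (((A.filter fun S => P₀ (wT W S) (UN S)).card : ℝ) - cc * (A.card : ℝ)) /
        (A.card : ℝ) := by
    field_simp
  rw [e3, abs_div, abs_of_pos hApos, div_lt_iff₀ hApos]
  have g4 : ε / 4 * (c * (X : ℝ) ^ M) ≤ ε / 4 * (A.card : ℝ) :=
    mul_le_mul_of_nonneg_left hlo (by positivity)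
  have g5 : 0 < ε * (A.card : ℝ) := by positivity
  have g6 : c * ε / 4 * (X : ℝ) ^ M = ε / 4 * (c * (X : ℝ) ^ M) := by ring
  rw [g6] at hout2 hη2 t7
  linarith

end Pool.Agent.H451.JR
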