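import Mathlib
import Pool.Agent.H451.JR.Stm
import Pool.Agent.H451.JLM.JLM
import Pool.Agent.H451.JLM.SYS

/-!
# Project JR (helper451): the joint law of all the ranks (abstract) and block systems

`t_JR : S_EX → S_TRR → S_CR → S_ER → S_JR` and `t_SYS : S_JR → S_SYS`, adapted from
`Pool/Agent/H451/JLM/JLM.lean` and `Pool/Agent/H451/JLM/SYS.lean`.
-/

set_option autoImplicit false
set_option linter.unusedVariables false

open scoped Classical

namespace Pool.Agent.H451.JR

open Finset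
open Pool.Agent.Y703.XK (prs ext c9)
open Pool.Agent.Y703.XL (cr)
open Pool.Agent.H451.JL (F In)
open Pool.Agent.H451.JLM (Sys pr NP wt nAw lap sp er)
open Pool.Agent.H451.JLM.JLMa (o_mem o_ne er_mono er_le)
open Pool.Agent.H451.JLM.SYSm (Lsp mem_Lsp card_Lsp bm)

namespace JR

variable {J : Type} [Fintype J] [LinearOrder J] {k : ℕ}

lemma rank_iff {s : Sys J k} {w : Fin k → J → F} {m₀ : ℕ} (hs : s.OK w m₀) (j : Fin k)
    (h : ∃ l, w j l ≠ 0) (α : prs J → F) (r : ℕ) :
    Nat.card (s.R w j α) = 3 ^ (r + 1) ↔ Module.finrank F (s.R w j α) - 1 = r := by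
  have hfin : Module.Finite F (s.L j) := Module.Finite.of_finite
  have hc : Nat.card (s.R w j α) = 3 ^ Module.finrank F (s.R w j α) := by
    have h1 := Module.card_eq_pow_finrank (K := F) (V := s.R w j α)
    rw [Nat.card_eq_fintype_card, h1, ZMod.card]
  have hpos : 0 < Module.finrank F (s.R w j α) := by
    have hnt : Nontrivial (s.R w j α) := by
      refine ⟨⟨s.o j, o_mem hs j α⟩, 0, fun h0 => o_ne hs j h ?_⟩
      exact congrArg Subtype.val h0
    exact Module.finrank_pos
  rw [hc]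
  constructor
  · intro h3
    have h5 := Nat.pow_right_injective (le_refl 2 |>.trans (by norm_num : 2 ≤ 3)) h3
    omega
  · intro h3
    have h4 : Module.finrank F (s.R w j α) = r + 1 := by omega
    rw [h4]

/-- the errors are nonnegative -/
lemma eR_nonneg (ρ t : ℕ) : 0 ≤ eR ρ t := by
  unfold eR
  positivity

end JR

open JR

theorem t_JR : Pool.Agent.H451.JLM.S_EX → S_TRR → S_CR → S_ER → S_JR := by
  intro hEX hTR hC hE k M W ρ hNP ε hε
  have hp : Filter.Tendsto (fun t : ℕ => (1 / 3 : ℝ) ^ t) Filter.atTop (nhds 0) :=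
    tendsto_pow_atTop_nhds_zero_of_lt_one (by norm_num) (by norm_num)
  have hsT : ∀ j, Filter.Tendsto (sR (ρ j)) Filter.atTop (nhds (cr (ρ j))) := by
    intro j
    rw [tendsto_iff_norm_sub_tendsto_zero]
    refine squeeze_zero' (Filter.Eventually.of_forall fun t => norm_nonneg _) ?_ (hE (ρ j))
    filter_upwards [Filter.eventually_ge_atTop (ρ j)] with t ht
    exact hC (ρ j) t ht
  have h1 : Filter.Tendsto (fun t => ∏ j, (1 + eR (ρ j) t) - 1 + |∏ j, sR (ρ j) t - ∏ j, cr (ρ j)|)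
      Filter.atTop (nhds 0) := by
    have a1 : Filter.Tendsto (fun t => ∏ j, (1 + eR (ρ j) t) - 1) Filter.atTop
        (nhds (∏ _j : Fin k, (1 + (0 : ℝ)) - 1)) :=
      (tendsto_finsetProd _ fun j _ => (hE (ρ j)).const_add 1).sub_const 1
    have a2 : Filter.Tendsto (fun t => |∏ j, sR (ρ j) t - ∏ j, cr (ρ j)|) Filter.atTop
        (nhds |∏ j, cr (ρ j) - ∏ j, cr (ρ j)|) :=
      ((tendsto_finsetProd _ fun j _ => hsT j).sub_const _).abs
    have := a1.add a2
    simpa using this
  have h0 : ∀ᶠ t : ℕ in Filter.atTop, ∀ j, ρ j ≤ t :=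
    Filter.eventually_all.2 fun j => Filter.eventually_ge_atTop (ρ j)
  obtain ⟨t, ht, htρ⟩ := ((h1.eventually (gt_mem_nhds (show (0 : ℝ) < ε / 2 by positivity))).and
    h0).exists
  obtain ⟨C, hC0, hT⟩ := hTR k t ρ htρ
  obtain ⟨D₀, hD₀⟩ : ∃ D₀, D₀ = k * (t + 1) := ⟨_, rfl⟩
  obtain ⟨q, hq⟩ : ∃ q : ℝ, q = 1 - (1 / 3 : ℝ) ^ D₀ := ⟨_, rfl⟩
  have hq0 : 0 ≤ q := by
    rw [hq]
    exact sub_nonneg.2 (pow_le_one₀ (by norm_num) (by norm_num))
  have hq1 : q < 1 := by
    rw [hq]
    have : (0 : ℝ) < (1 / 3 : ℝ) ^ D₀ := by positivity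
    linarith
  have hqT : Filter.Tendsto (fun N : ℕ => q ^ N) Filter.atTop (nhds 0) :=
    tendsto_pow_atTop_nhds_zero_of_lt_one hq0 hq1
  have h2 : Filter.Tendsto (fun N : ℕ => C * (3 ^ (D₀ ^ 2 + 2 * D₀ + 1) * (1 / 3 : ℝ) ^ N +
      2 ^ (9 ^ D₀ * M) * q ^ N)) Filter.atTop
      (nhds (C * (3 ^ (D₀ ^ 2 + 2 * D₀ + 1) * 0 + 2 ^ (9 ^ D₀ * M) * 0))) :=
    ((hp.const_mul _).add (hqT.const_mul _)).const_mul _
  rw [mul_zero, mul_zero, add_zero, mul_zero] at h2
  have h3 : Filter.Tendsto (fun N : ℕ => (3 : ℝ) ^ D₀ * q ^ N) Filter.atTop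
      (nhds (3 ^ D₀ * 0)) := hqT.const_mul _
  rw [mul_zero] at h3
  obtain ⟨N, ⟨hN1, hN2⟩, hN3⟩ := (((h2.eventually
    (gt_mem_nhds (show (0 : ℝ) < ε / 2 by positivity))).and
    (h3.eventually (gt_mem_nhds (show (0 : ℝ) < 1 by norm_num)))).and
    (Filter.eventually_ge_atTop 1)).exists
  refine ⟨N, ?_⟩
  intro J _ _ μ m₀ s hs hcl
  have hn1 : 1 ≤ N * (m₀ + 1) := Nat.mul_pos hN3 (Nat.succ_pos _)
  have hsup : ∀ j, ∃ l, wt W μ j l ≠ 0 := by
    intro j
    obtain ⟨m, hm⟩ := hNP.1 j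
    have h4 : 0 < (univ.filter fun l => μ l = m).card := lt_of_lt_of_le hn1 (hcl m)
    obtain ⟨l, hl⟩ := Finset.card_pos.1 h4
    refine ⟨l, ?_⟩
    unfold wt
    rw [(Finset.mem_filter.1 hl).2]
    exact hm
  have hcard : (Fintype.card (prs J → F) : ℝ) = 3 ^ (prs J).card := by
    rw [Fintype.card_fun, ZMod.card, Fintype.card_coe]
    push_cast
    rfl
  have h5 := hT (prs J → F) (fun α j => Module.finrank F (s.R (wt W μ) j α) - 1)
    (er D₀ M m₀ (N * (m₀ + 1))) Fintype.card_pos (by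
      unfold er
      rw [← hq]
      positivity) (by
      intro d hd
      have h6 := hEX J k M m₀ (N * (m₀ + 1)) W μ s d hNP hs hn1 hcl
      rw [hcard]
      refine h6.trans (er_mono ?_ M m₀ _)
      rw [hD₀]
      calc ∑ j, d j ≤ ∑ _j : Fin k, (t + 1) := Finset.sum_le_sum fun j _ => hd j
        _ = k * (t + 1) := by simp)
  have e : pr (fun α => ∀ j, Nat.card (s.R (wt W μ) j α) = 3 ^ (ρ j + 1)) =
      ((univ.filter fun α : prs J → F =>
        ∀ j, Module.finrank F (s.R (wt W μ) j α) - 1 = ρ j).card : ℝ) /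
        (Fintype.card (prs J → F) : ℝ) := by
    unfold pr
    rw [hcard]
    congr 3
    ext α
    simp only [Finset.mem_filter, Finset.mem_univ, true_and]
    exact forall_congr' fun j => rank_iff hs j (hsup j) α (ρ j)
  rw [← e] at h5
  have h6 : C * er D₀ M m₀ (N * (m₀ + 1)) ≤ C * (3 ^ (D₀ ^ 2 + 2 * D₀ + 1) * (1 / 3 : ℝ) ^ N +
      2 ^ (9 ^ D₀ * M) * q ^ N) := by
    refine mul_le_mul_of_nonneg_left ?_ hC0
    have h7 := er_le D₀ M m₀ N hN3 (by rw [← hq]; exact hN2.le)
    rw [← hq] at h7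
    exact h7
  have h8 := abs_sub_le (pr (fun α => ∀ j, Nat.card (s.R (wt W μ) j α) = 3 ^ (ρ j + 1)))
    (∏ j, sR (ρ j) t) (∏ j, cr (ρ j))
  linarith

theorem t_SYS : S_JR → S_SYS := by
  intro hJR k M W ρ hNP ε hε
  obtain ⟨N, hN⟩ := hJR k M W ρ hNP ε hε
  refine ⟨N, ?_⟩
  intro U _ J _ _ μ A B m₀ hA hBw hU hB hJ
  have hBw' : ∀ j u l, wt W μ j l = 0 → B j u l = 0 := hBw
  have ho : ∀ j, ((fun _ => 1, fun l => if wt W μ j l = 0 then 0 else 1) :
      (U j → F) × (J → F)) ∈ Lsp (A j) (B j) (wt W μ j) := by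
    intro j
    rw [mem_Lsp]
    refine ⟨fun u => ?_, fun l hl => by simp [hl]⟩
    simp only [sub_self, mul_zero, Finset.sum_const_zero, zero_add]
    refine Finset.sum_eq_zero fun l _ => ?_
    by_cases h : wt W μ j l = 0
    · rw [hBw' j u l h, zero_mul]
    · rw [if_neg h, sub_self, mul_zero]
  let s : Sys J k :=
    { L := fun j => Lsp (A j) (B j) (wt W μ j)
      g := fun j => inferInstance
      m := fun j => inferInstance
      f := fun j => Fintype.ofFinite _
      y := fun j => LinearMap.snd F (U j → F) (J → F) ∘ₗ Submodule.subtype _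
      b := fun j => bm (B j) ∘ₗ Submodule.subtype _
      o := fun j => ⟨_, ho j⟩ }
  have hy : ∀ j (p : Lsp (A j) (B j) (wt W μ j)), s.y j p = p.1.2 := fun j p => rfl
  have hb : ∀ j (p : Lsp (A j) (B j) (wt W μ j)) l,
      s.b j p l = - ∑ u, B j u l * (p.1.1 u - p.1.2 l) := fun j p l => rfl
  have hok : s.OK (wt W μ) m₀ := by
    refine ⟨?_, ?_, ?_, ?_, ?_, ?_, ?_, ?_, ?_⟩
    · intro j p l hl
      exact ((mem_Lsp _ _ _ _).1 p.2).2 l hl
    · intro j (p : Lsp (A j) (B j) (wt W μ j)) l hl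
      rw [hb]
      simp [hBw' j _ l hl]
    · intro j (p : Lsp (A j) (B j) (wt W μ j))
      simp only [hb]
      have h1 := fun u => ((mem_Lsp _ _ _ _).1 p.2).1 u
      have h2 : ∑ u, (∑ v, A j u v * (p.1.1 v - p.1.1 u) +
          ∑ l, B j u l * (p.1.2 l - p.1.1 u)) = 0 := Finset.sum_eq_zero fun u _ => h1 u
      have h3 : ∑ u, ∑ v, A j u v * (p.1.1 v - p.1.1 u) = 0 := by
        have e1 : ∑ u, ∑ v, A j u v * (p.1.1 v - p.1.1 u) =
            ∑ u, ∑ v, A j u v * p.1.1 v - ∑ u, ∑ v, A j u v * p.1.1 u := by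
          rw [← Finset.sum_sub_distrib]
          refine Finset.sum_congr rfl fun u _ => ?_
          rw [← Finset.sum_sub_distrib]
          exact Finset.sum_congr rfl fun v _ => by ring
        rw [e1, Finset.sum_comm, sub_eq_zero]
        refine Finset.sum_congr rfl fun u _ => Finset.sum_congr rfl fun v _ => ?_
        rw [hA j v u]
      rw [Finset.sum_add_distrib, h3, zero_add, Finset.sum_comm] at h2
      rw [← h2]
      refine Finset.sum_congr rfl fun l _ => ?_
      rw [← Finset.sum_neg_distrib]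
      exact Finset.sum_congr rfl fun u _ => by ring
    · intro j (p : Lsp (A j) (B j) (wt W μ j)) (q : Lsp (A j) (B j) (wt W μ j))
      simp only [hb, hy]
      -- the bilinear quantities
      have key : ∀ p q : Lsp (A j) (B j) (wt W μ j),
          ∑ l, ∑ u, B j u l * p.1.2 l * q.1.1 u =
            ∑ l, ∑ u, B j u l * p.1.1 u * q.1.1 u -
              ∑ u, ∑ v, A j u v * (p.1.1 v - p.1.1 u) * q.1.1 u := by
        intro p q
        have h1 := fun u => ((mem_Lsp _ _ _ _).1 p.2).1 u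
        have h2 : ∑ u, (∑ v, A j u v * (p.1.1 v - p.1.1 u) +
          ∑ l, B j u l * (p.1.2 l - p.1.1 u)) * q.1.1 u = 0 :=
          Finset.sum_eq_zero fun u _ => by rw [h1 u, zero_mul]
        have h3 : ∑ u, (∑ v, A j u v * (p.1.1 v - p.1.1 u) +
          ∑ l, B j u l * (p.1.2 l - p.1.1 u)) * q.1.1 u =
          ∑ u, ∑ v, A j u v * (p.1.1 v - p.1.1 u) * q.1.1 u +
            (∑ u, ∑ l, B j u l * p.1.2 l * q.1.1 u - ∑ u, ∑ l, B j u l * p.1.1 u * q.1.1 u) := by
          rw [← Finset.sum_sub_distrib, ← Finset.sum_add_distrib]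
          refine Finset.sum_congr rfl fun u _ => ?_
          rw [add_mul, Finset.sum_mul, Finset.sum_mul, ← Finset.sum_sub_distrib]
          congr 1
          exact Finset.sum_congr rfl fun v _ => by ring
        rw [h3] at h2
        rw [Finset.sum_comm, Finset.sum_comm (f := fun l u => B j u l * p.1.1 u * q.1.1 u)]
        linear_combination h2
      have hAs : ∑ u, ∑ v, A j u v * (p.1.1 v - p.1.1 u) * q.1.1 u =
          ∑ u, ∑ v, A j u v * (q.1.1 v - q.1.1 u) * p.1.1 u := by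
        have e1 : ∀ p q : U j → F, ∑ u, ∑ v, A j u v * (p v - p u) * q u =
            ∑ u, ∑ v, A j u v * p v * q u - ∑ u, ∑ v, A j u v * p u * q u := by
          intro p q
          rw [← Finset.sum_sub_distrib]
          refine Finset.sum_congr rfl fun u _ => ?_
          rw [← Finset.sum_sub_distrib]
          exact Finset.sum_congr rfl fun v _ => by ring
        rw [e1, e1]
        congr 1
        · rw [Finset.sum_comm]
          refine Finset.sum_congr rfl fun u _ => Finset.sum_congr rfl fun v _ => ?_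
          rw [hA j v u]
          ring
        · exact Finset.sum_congr rfl fun u _ => Finset.sum_congr rfl fun v _ => by ring
      have hBs : ∑ l, ∑ u, B j u l * p.1.1 u * q.1.1 u =
          ∑ l, ∑ u, B j u l * q.1.1 u * p.1.1 u :=
        Finset.sum_congr rfl fun u _ => Finset.sum_congr rfl fun v _ => by ring
      have e2 : ∀ p q : (U j → F) × (J → F),
          ∑ l, (- ∑ u, B j u l * (p.1 u - p.2 l)) * q.2 l =
          ∑ l, ∑ u, B j u l * p.2 l * q.2 l - ∑ l, ∑ u, B j u l * q.2 l * p.1 u := by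
        intro p q
        rw [← Finset.sum_sub_distrib]
        refine Finset.sum_congr rfl fun l _ => ?_
        rw [← Finset.sum_sub_distrib, ← Finset.sum_neg_distrib, Finset.sum_mul]
        exact Finset.sum_congr rfl fun v _ => by ring
      rw [e2, e2]
      have k1 := key p q
      have k2 := key q p
      have e3 : ∑ l, ∑ u, B j u l * p.1.2 l * q.1.2 l = ∑ l, ∑ u, B j u l * q.1.2 l * p.1.2 l :=
        Finset.sum_congr rfl fun u _ => Finset.sum_congr rfl fun v _ => by ring
      rw [hAs, hBs] at k1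
      rw [e3, k1, k2]
    · intro j (p : Lsp (A j) (B j) (wt W μ j)) (h1 : p.1.2 = 0) h2
      have h3 : p.1.1 = 0 := by
        by_contra hne
        obtain ⟨l, hl⟩ := hB j p.1.1 (by
          by_contra hc
          push Not at hc
          exact hne (funext hc))
        apply hl
        have h4 := congrFun h2 l
        rw [hb, h1, Pi.zero_apply, neg_eq_zero] at h4
        rw [← h4]
        refine Finset.sum_congr rfl fun u _ => ?_
        rw [sub_zero, mul_comm]
      exact Subtype.ext (Prod.ext h3 h1)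
    · intro j
      exact card_Lsp (A j) (B j) (wt W μ j) (hBw' j) (hB j)
    · intro j
      have h1 : Nat.card {p : Lsp (A j) (B j) (wt W μ j) // p.1.2 = 0} ≤ Nat.card (U j → F) := by
        refine Nat.card_le_card_of_injective
          (fun p : {p : Lsp (A j) (B j) (wt W μ j) // p.1.2 = 0} => p.1.1.1) ?_
        intro p q h
        refine Subtype.ext (Subtype.ext (Prod.ext h ?_))
        rw [p.2, q.2]
      refine h1.trans ?_
      rw [Nat.card_fun, Nat.card_eq_fintype_card, Nat.card_eq_fintype_card, ZMod.card]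
      exact Nat.pow_le_pow_right (by norm_num) (hU j)
    · intro j l
      rfl
    · intro j
      funext l
      change - ∑ u, B j u l * ((1 : F) - if wt W μ j l = 0 then 0 else 1) = 0
      by_cases h : wt W μ j l = 0
      · simp [hBw' j _ l h]
      · simp [h]
  have h1 := hN J μ m₀ s hok hJ
  have h2 : ∀ α : prs J → F, ∀ j, nAw (A j) (B j) (wt W μ j) α =
      Nat.card (s.R (wt W μ) j α) := by
    intro α j
    unfold nAw
    have hmem : ∀ p : Lsp (A j) (B j) (wt W μ j), p ∈ s.R (wt W μ) j α ↔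
        ∀ l, ∑ u, B j u l * (p.1.1 u - p.1.2 l) +
          ∑ l', wt W μ j l * wt W μ j l' * ext α l l' * (p.1.2 l' - p.1.2 l) = 0 := by
      intro p
      unfold Sys.R
      rw [LinearMap.mem_ker, LinearMap.sub_apply, sub_eq_zero, funext_iff]
      refine forall_congr' fun l => ?_
      change ∑ l', wt W μ j l * wt W μ j l' * ext α l l' * (p.1.2 l' - p.1.2 l) =
        - ∑ u, B j u l * (p.1.1 u - p.1.2 l) ↔ _
      rw [eq_neg_iff_add_eq_zero, add_comm]
    refine Nat.card_congr
      { toFun := fun p => ⟨⟨p.1, (mem_Lsp _ _ _ _).2 ⟨p.2.2.1, p.2.1⟩⟩, (hmem _).2 p.2.2.2⟩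
        invFun := fun p => ⟨p.1.1, ((mem_Lsp _ _ _ _).1 p.1.2).2, ((mem_Lsp _ _ _ _).1 p.1.2).1,
          (hmem _).1 p.2⟩
        left_inv := fun p => rfl
        right_inv := fun p => rfl }
  have h3 : ((univ.filter fun α : prs J → F => ∀ j, nAw (A j) (B j) (wt W μ j) α =
      3 ^ (ρ j + 1)).card : ℝ) / 3 ^ (prs J).card =
      pr (fun α => ∀ j, Nat.card (s.R (wt W μ) j α) = 3 ^ (ρ j + 1)) := by
    unfold pr
    congr 3
    ext α
    simp only [Finset.mem_filter, Finset.mem_univ, true_and]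
    refine forall_congr' fun j => ?_
    rw [h2]
  rw [h3]
  exact h1

end Pool.Agent.H451.JR
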