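import Mathlib
import Pool.Agent.H451.JR.Gen
import Pool.Agent.H451.JB.KEY

/-!
# Project JR: the sum over the boxes for an arbitrary property (from `Pool.Agent.H451.JB.t_KEY`)
-/

set_option autoImplicit false

namespace Pool.Agent.H451.JR

open Finset
open Pool.Agent.Y692.QS (Ei w nr toC)
open Pool.Agent.Y715.T.Rec (cs)
open Pool.Agent.Y715.T.RecG (Pq)
open Pool.Agent.Y699.E (ez nrm QB mem_QB pq_nrm_two nrm_prod PS_prod PD SB mem_SB card_SB_le
  hsum_SB lg)
open Pool.Agent.Y703.CX (jj XX)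
open Pool.Agent.Y703.XK (Nd SS RR HB prs ext sm la bl S_BIL S_EQ)
open Pool.Agent.XLK
open Pool.Agent.H451.JL (F sw nW)
open Pool.Agent.H451.JB hiding t_KEY S_KEY S_DQ S_BOX
open Pool.Agent.H451.JB.KEY hiding bxt_dec per_keyT
open scoped Classical

/-- the statement for the boxes with the decidability of equality as a variable -/
theorem bxt_dec {k M : ℕ} {P₀ : (Fin k → Ei → F) → Finset Ei → Prop} {cc : ℝ} {W : Fin k → Fin M → F} {V : ℕ} {ε : ℝ}
    (hB : BXG P₀ cc W V ε) (ι : Type) [Fintype ι] [inst : DecidableEq ι]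
    (lo : LinearOrder ι) (C : ι → Finset Ei) (ν : ι → Fin M) (X : ι → ℕ) (κ : ℝ)
    (S₀ : Finset Ei) (w₀ : Fin k → Ei → F) (h1 : 0 ≤ κ)
    (h2 : ∀ i, (C i).card ≤ X i) (h3 : HB C X κ) (h4 : ∀ u ∈ S₀, Pq u)
    (h5 : ∀ i, ∀ π ∈ C i, Pq π ∧ π ∉ S₀)
    (h6 : ∀ i l, i ≠ l → Disjoint (C i) (C l)) :
    |(((Fintype.piFinset C).filter fun p => NdP V ν S₀ p ∧
        P₀ (wB W ν w₀ S₀ p) (S₀ ∪ univ.image p)).card : ℝ) -
      cc * (((Fintype.piFinset C).filter fun p => NdP V ν S₀ p).card : ℝ)| ≤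
    ε * (((Fintype.piFinset C).filter fun p => NdP V ν S₀ p).card : ℝ) +
    3 ^ (S₀.card * Fintype.card ι + (prs ι).card) * (κ * ∏ j, (X j : ℝ)) := by
  have h := hB ι C ν X κ S₀ w₀ h1 h2 h3 h4 h5 h6
  have e : inst = fun a b => lo.toDecidableEq a b := Subsingleton.elim _ _
  subst e
  exact h

theorem per_keyT {k M : ℕ} {P₀ : (Fin k → Ei → F) → Finset Ei → Prop} {cc : ℝ} {W : Fin k → Fin M → F} {R : Set (Fin M → ℕ)} {V : ℕ} {ε : ℝ}
    (hB : BXG P₀ cc W V ε) (hε : 0 ≤ ε) {C₁ : ℝ}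
    (hb1 : ∀ (P Q : Finset Ei) (A B z : ℕ) (c d : Ei → ℂ) (a : ZMod 3),
      (∀ π ∈ P, Pq π ∧ nrm π ≤ A) → (∀ ρ ∈ Q, Pq ρ ∧ nrm ρ ≤ B) → Disjoint P Q → a ≠ 0 →
      1 ≤ z → z ≤ A → z ≤ B → (∀ π, ‖c π‖ ≤ 1) → (∀ ρ, ‖d ρ‖ ≤ 1) →
      ‖∑ π ∈ P, ∑ ρ ∈ Q, c π * d ρ * ez (a * cs π ρ)‖ ^ 24 * z ≤ C₁ * ((A : ℝ) * B) ^ 24)
    {X z H K : ℕ} {κ : ℝ} (hH : 1 ≤ H) (hz : 1 ≤ z) (hκ : 0 ≤ κ)
    (h1 : C₁ ≤ κ ^ 24 * z)
    {kk : Fin M → Finset Ei × Finset ℕ} (hkey : kk ∈ (RT M X z H K).image (KY z H)) :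
    |(((RT M X z H K).filter fun S => KY z H S = kk ∧
        ((CondT R S ∧ NdT V z S) ∧ P₀ (wT W S) (UN S))).card : ℝ) -
      cc * (((RT M X z H K).filter fun S => KY z H S = kk ∧
        (CondT R S ∧ NdT V z S)).card : ℝ)| ≤
    ε * (((RT M X z H K).filter fun S => KY z H S = kk ∧ True).card : ℝ) +
      (3 ^ (9 * (M * K) ^ 2) * κ) *
        ∏ m, ((X : ℝ) * (1 / ((∏ p ∈ (kk m).1, nrm p : ℕ) : ℝ))) := by
  have hf := fun m => key_facts hH (key_m hkey m)
  have h₀O : ∀ m, ∀ q ∈ (kk m).1, Pq q := fun m => (hf m).1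
  have h₀ : ∀ m, ∀ q ∈ (kk m).1, nrm q ≤ z := fun m => (hf m).2.1
  have hd := key_dj hkey
  have hN0 : ∀ m, (0 : ℝ) < ((∏ p ∈ (kk m).1, nrm p : ℕ) : ℝ) := fun m => by
    exact_mod_cast Finset.prod_pos fun p hp => nrm_one_le (h₀O m p hp)
  have hCmem : ∀ i : Ix kk, ∀ p ∈ CC z H i.2, Pq p ∧ z < nrm p ∧
      nrm p ≤ XX H ((i.2 : ℕ) / 9) := by
    intro i p hp
    obtain ⟨k1, k2, k3⟩ := (mem_CC hH).1 hp
    refine ⟨k1, k2, ?_⟩
    unfold CC at hp
    rw [Finset.mem_filter, mem_QB] at hp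
    exact hp.1.1
  have hdis : ∀ i l : Ix kk, i ≠ l → Disjoint (CC z H (i.2 : ℕ)) (CC z H (l.2 : ℕ)) := by
    intro i l hil
    rw [Finset.disjoint_left]
    intro p hp hp'
    have h5 := ((mem_CC hH).1 hp).2.2
    have h6 := ((mem_CC hH).1 hp').2.2
    exact hil (val_inj hd (h5.symm.trans h6))
  have hzX : ∀ i : Ix kk, z ≤ XX H ((i.2 : ℕ) / 9) := fun i =>
    ((hf i.1).2.2.2.2 i.2 i.2.2).1
  have hP0 : (0 : ℝ) ≤ ∏ m, ((X : ℝ) * (1 / ((∏ p ∈ (kk m).1, nrm p : ℕ) : ℝ))) :=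
    Finset.prod_nonneg fun m _ => by
      have := hN0 m
      positivity
  have hE0 : (0 : ℝ) ≤ (3 ^ (9 * (M * K) ^ 2) * κ) *
      ∏ m, ((X : ℝ) * (1 / ((∏ p ∈ (kk m).1, nrm p : ℕ) : ℝ))) := by positivity
  -- the counts
  have e1 : ((RT M X z H K).filter fun S => KY z H S = kk ∧
      ((CondT R S ∧ NdT V z S) ∧ P₀ (wT W S) (UN S))).card =
      ((Fintype.piFinset fun i : Ix kk => CC z H i.2).filter fun p =>
        ResT R kk ∧ (NdP V (fun i : Ix kk => i.1) (U0 kk) p ∧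
          P₀ (wB W (fun i : Ix kk => i.1) (wT W fun m => (kk m).1) (U0 kk) p)
            (U0 kk ∪ univ.image p))).card := by
    refine ((fcc fun _ _ => Iff.rfl).trans (key_bijT hH hkey (fun S => (CondT R S ∧
      NdT V z S) ∧ P₀ (wT W S) (UN S))).symm).trans ?_
    refine fcc ?_
    intro p hp
    rw [Fintype.mem_piFinset] at hp
    rw [cond_fill hH h₀ hp, ndT_fill hH h₀ hp, wT_fill hH h₀ hp, un_fill]
    tauto
  have e2 : ((RT M X z H K).filter fun S => KY z H S = kk ∧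
      (CondT R S ∧ NdT V z S)).card =
      ((Fintype.piFinset fun i : Ix kk => CC z H i.2).filter fun p =>
        ResT R kk ∧ NdP V (fun i : Ix kk => i.1) (U0 kk) p).card := by
    refine ((fcc fun _ _ => Iff.rfl).trans (key_bijT hH hkey (fun S => CondT R S ∧
      NdT V z S)).symm).trans ?_
    refine fcc ?_
    intro p hp
    rw [Fintype.mem_piFinset] at hp
    rw [cond_fill hH h₀ hp, ndT_fill hH h₀ hp]
  have e3 : (((RT M X z H K).filter fun S => KY z H S = kk ∧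
      (CondT R S ∧ NdT V z S)).card : ℝ) ≤
      (((RT M X z H K).filter fun S => KY z H S = kk ∧ True).card : ℝ) := by
    have : (RT M X z H K).filter (fun S => KY z H S = kk ∧ (CondT R S ∧ NdT V z S)) ⊆
        (RT M X z H K).filter fun S => KY z H S = kk ∧ True := by
      intro S hS
      rw [Finset.mem_filter] at hS ⊢
      exact ⟨hS.1, hS.2.1, trivial⟩
    exact_mod_cast Finset.card_le_card this
  rw [e1, e2]
  rw [e2] at e3
  by_cases hr : ResT R kk
  · have hHB : HB (fun i : Ix kk => CC z H i.2)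
        (fun i : Ix kk => 16 * XX H ((i.2 : ℕ) / 9)) κ :=
      hb_box hb1 _ _ hz hκ h1 (fun i => by have := hzX i; omega)
        (fun i p hp => by
          obtain ⟨k1, k2, k3⟩ := hCmem i p hp
          exact ⟨k1, by omega⟩) hdis
    have hcard : ∀ i : Ix kk, (CC z H (i.2 : ℕ)).card ≤ 16 * XX H ((i.2 : ℕ) / 9) := by
      intro i
      refine (Finset.card_filter_le _ _).trans (card_QB_le ?_)
      have := hzX i
      omega
    let lo : LinearOrder (Ix kk) := LinearOrder.lift' (fun i : Ix kk => (i.2 : ℕ)) (val_inj hd)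
    have hbox := bxt_dec hB (Ix kk) lo (fun i : Ix kk => CC z H i.2)
      (fun i : Ix kk => i.1) (fun i : Ix kk => 16 * XX H ((i.2 : ℕ) / 9)) κ (U0 kk)
      (wT W fun m => (kk m).1) hκ hcard hHB (fun u hu => by
        unfold U0 at hu
        rw [mem_UN] at hu
        obtain ⟨m, hm⟩ := hu
        exact h₀O m u hm) (fun i p hp => by
        obtain ⟨k1, k2, k3⟩ := hCmem i p hp
        refine ⟨k1, fun h => ?_⟩
        unfold U0 at h
        rw [mem_UN] at h
        obtain ⟨m, hm⟩ := h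
        have := h₀ m p hm
        omega) hdis
    have hErr := err_key hH hκ hkey (prs_card (Ix kk))
    have f1 : ((Fintype.piFinset fun i : Ix kk => CC z H i.2).filter fun p =>
        ResT R kk ∧ (NdP V (fun i : Ix kk => i.1) (U0 kk) p ∧
          P₀ (wB W (fun i : Ix kk => i.1) (wT W fun m => (kk m).1) (U0 kk) p)
            (U0 kk ∪ univ.image p))).card =
        ((Fintype.piFinset fun i : Ix kk => CC z H i.2).filter fun p =>
        NdP V (fun i : Ix kk => i.1) (U0 kk) p ∧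
          P₀ (wB W (fun i : Ix kk => i.1) (wT W fun m => (kk m).1) (U0 kk) p)
            (U0 kk ∪ univ.image p)).card :=
      fcc fun p _ => ⟨fun h => h.2, fun h => ⟨hr, h⟩⟩
    have f2 : ((Fintype.piFinset fun i : Ix kk => CC z H i.2).filter fun p =>
        ResT R kk ∧ NdP V (fun i : Ix kk => i.1) (U0 kk) p).card =
        ((Fintype.piFinset fun i : Ix kk => CC z H i.2).filter fun p =>
        NdP V (fun i : Ix kk => i.1) (U0 kk) p).card :=
      fcc fun p _ => ⟨fun h => h.2, fun h => ⟨hr, h⟩⟩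
    rw [f1, f2]
    rw [f2] at e3
    refine hbox.trans (add_le_add (mul_le_mul_of_nonneg_left e3 hε) hErr)
  · have f1 : (Fintype.piFinset fun i : Ix kk => CC z H i.2).filter (fun p =>
        ResT R kk ∧ (NdP V (fun i : Ix kk => i.1) (U0 kk) p ∧
          P₀ (wB W (fun i : Ix kk => i.1) (wT W fun m => (kk m).1) (U0 kk) p)
            (U0 kk ∪ univ.image p))) = ∅ := by
      rw [Finset.filter_eq_empty_iff]
      rintro p - ⟨h2, -⟩
      exact hr h2
    have f2 : (Fintype.piFinset fun i : Ix kk => CC z H i.2).filter (fun p =>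
        ResT R kk ∧ NdP V (fun i : Ix kk => i.1) (U0 kk) p) = ∅ := by
      rw [Finset.filter_eq_empty_iff]
      rintro p - ⟨h2, -⟩
      exact hr h2
    rw [f1, f2, Finset.card_empty, Nat.cast_zero, mul_zero, sub_zero, abs_zero]
    have : (0 : ℝ) ≤ ε * (((RT M X z H K).filter fun S => KY z H S = kk ∧ True).card : ℝ) :=
      mul_nonneg hε (Nat.cast_nonneg _)
    linarith

/-- **JB-KEY.** -/
theorem t_KEY : S_KEY := by
  rintro ⟨C₁, hC₁, hb1⟩ k M P₀ cc W R V ε hε hV hB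
  refine ⟨C₁, hC₁, ?_⟩
  intro X z H K N κ hX hH hz hκ h1 hN
  set T := (RT M X z H K).image (KY z H) with hT
  have hfib : ∀ P : (Fin M → Finset Ei) → Prop,
      (((RT M X z H K).filter fun S => P S).card : ℝ) =
      ∑ k' ∈ T, (((RT M X z H K).filter fun S => KY z H S = k' ∧ P S).card : ℝ) := by
    intro P
    rw [Finset.card_eq_sum_card_fiberwise (f := KY z H) (t := T) (by
      intro S hS
      rw [Finset.mem_coe, Finset.mem_filter] at hS
      exact Finset.mem_coe.2 (Finset.mem_image_of_mem _ hS.1))]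
    push_cast
    refine Finset.sum_congr rfl fun k' _ => ?_
    congr 2
    ext S
    simp only [Finset.mem_filter]
    tauto
  have hall : ((RT M X z H K).card : ℝ) =
      ∑ k' ∈ T, (((RT M X z H K).filter fun S => KY z H S = k' ∧ True).card : ℝ) := by
    rw [Finset.card_eq_sum_card_fiberwise (f := KY z H) (t := T) (by
      intro S hS
      exact Finset.mem_coe.2 (Finset.mem_image_of_mem _ hS))]
    push_cast
    exact Finset.sum_congr rfl fun k' _ => congrArg _ (fcc fun _ _ => by tauto)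
  have q1 : (((RT M X z H K).filter fun S => (CondT R S ∧ NdT V z S) ∧
      P₀ (wT W S) (UN S)).card : ℝ) =
      ∑ k' ∈ T, (((RT M X z H K).filter fun S => KY z H S = k' ∧
        ((CondT R S ∧ NdT V z S) ∧ P₀ (wT W S) (UN S))).card : ℝ) :=
    (congrArg _ (fcc fun _ _ => Iff.rfl)).trans ((hfib fun S => (CondT R S ∧
      NdT V z S) ∧ P₀ (wT W S) (UN S)).trans
      (Finset.sum_congr rfl fun k' _ => congrArg _ (fcc fun _ _ => Iff.rfl)))
  have q2 : (((RT M X z H K).filter fun S => CondT R S ∧ NdT V z S).card : ℝ) =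
      ∑ k' ∈ T, (((RT M X z H K).filter fun S => KY z H S = k' ∧
        (CondT R S ∧ NdT V z S)).card : ℝ) :=
    (congrArg _ (fcc fun _ _ => Iff.rfl)).trans ((hfib fun S => CondT R S ∧
      NdT V z S).trans
      (Finset.sum_congr rfl fun k' _ => congrArg _ (fcc fun _ _ => Iff.rfl)))
  rw [q1, q2, Finset.mul_sum, ← Finset.sum_sub_distrib, hall, Finset.mul_sum]
  refine (Finset.abs_sum_le_sum_abs _ _).trans ?_
  have h3 : ∑ k' ∈ T, |(((RT M X z H K).filter fun S => KY z H S = k' ∧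
      ((CondT R S ∧ NdT V z S) ∧ P₀ (wT W S) (UN S))).card : ℝ) -
      cc * (((RT M X z H K).filter fun S =>
      KY z H S = k' ∧ (CondT R S ∧ NdT V z S)).card : ℝ)| ≤
      ∑ k' ∈ T, (ε * (((RT M X z H K).filter fun S =>
      KY z H S = k' ∧ True).card : ℝ) +
      (3 ^ (9 * (M * K) ^ 2) * κ) *
        ∏ m, ((X : ℝ) * (1 / ((∏ p ∈ (k' m).1, nrm p : ℕ) : ℝ)))) := by
    refine Finset.sum_le_sum fun k' hk => ?_
    exact per_keyT hB hε hb1 hH hz hκ h1 hk
  refine h3.trans ?_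
  rw [Finset.sum_add_distrib, ← Finset.mul_sum (f := fun k' : Fin M → Finset Ei × Finset ℕ =>
    ∏ m, ((X : ℝ) * (1 / ((∏ p ∈ (k' m).1, nrm p : ℕ) : ℝ))))]
  refine add_le_add (le_refl _) ?_
  have h4 := sum_err (M := M) (K := K) hX hH hz hN
  have h5 : (0 : ℝ) ≤ 3 ^ (9 * (M * K) ^ 2) * κ := by positivity
  refine (mul_le_mul_of_nonneg_left h4 h5).trans (le_of_eq ?_)
  rw [pow_add]
  ring

end Pool.Agent.H451.JR
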