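import Pool.Agent.H451.JR.Stm
import Pool.Agent.H451.JL.Q

/-! # JR-Q and JR-E: the truncated inversion formula for all ranks and the errors (helper287) -/

set_option autoImplicit false
set_option linter.unusedVariables false

open scoped Classical

namespace Pool.Agent.H451.JR

open Finset
open Pool.Agent.H451.JL (In mu eT)

namespace QE

theorem In_lt {d r : ℕ} (h : r < d) : In d r = 0 := by
  unfold In
  exact prod_eq_zero (mem_range.2 h) (sub_self _)

/-- splitting off the first `ρ` factors -/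
theorem In_split (ρ m n : ℕ) :
    In (ρ + m) (ρ + n) = In ρ (ρ + n) * (3 ^ (ρ * m) * In m n) := by
  unfold In
  rw [prod_range_add]
  congr 1
  rw [pow_mul]
  have h1 : ((3 : ℝ) ^ ρ) ^ m = ∏ _i ∈ range m, ((3 : ℝ) ^ ρ) := by simp
  rw [h1, ← prod_mul_distrib]
  refine prod_congr rfl fun i _ => ?_
  rw [pow_add, pow_add]
  ring

theorem In_pos' {ρ r : ℕ} (h : ρ ≤ r) : 0 < In ρ r := by
  unfold In
  refine prod_pos fun i hi => ?_
  have : (3 : ℝ) ^ i < 3 ^ r :=
    pow_lt_pow_right₀ (by norm_num) (lt_of_lt_of_le (mem_range.1 hi) h)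
  linarith

theorem muR_lt {ρ d : ℕ} (h : d < ρ) : muR ρ d = 0 := by
  unfold muR
  rw [In_lt h, mul_zero, zero_div]

/-- the coefficients at `ρ + m` -/
theorem muR_add (ρ m : ℕ) : muR ρ (ρ + m) = mu m / (In ρ ρ * 3 ^ (ρ * m)) := by
  unfold muR mu
  rw [Nat.add_sub_cancel_left, In_split ρ m m]
  have h1 : In ρ (ρ + m) ≠ 0 := (In_pos' (Nat.le_add_right _ _)).ne'
  have h2 : In ρ ρ ≠ 0 := (In_pos' le_rfl).ne'
  have h3 : In m m ≠ 0 := (In_pos' le_rfl).ne'
  have h4 : (3 : ℝ) ^ (ρ * m) ≠ 0 := by positivity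
  field_simp

theorem muR_mul (ρ m n : ℕ) :
    muR ρ (ρ + m) * In (ρ + m) (ρ + n) = In ρ (ρ + n) / In ρ ρ * (mu m * In m n) := by
  rw [muR_add, In_split]
  have h2 : In ρ ρ ≠ 0 := (In_pos' le_rfl).ne'
  have h4 : (3 : ℝ) ^ (ρ * m) ≠ 0 := by positivity
  field_simp

theorem sum_mul (ρ t n : ℕ) :
    ∑ d ∈ range (ρ + t + 1), muR ρ d * In d (ρ + n) =
      In ρ (ρ + n) / In ρ ρ * ∑ e ∈ range (t + 1), mu e * In e n := by
  rw [add_assoc, sum_range_add, sum_eq_zero fun d hd => by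
    rw [muR_lt (mem_range.1 hd), zero_mul], zero_add, mul_sum]
  exact sum_congr rfl fun e _ => muR_mul ρ e n

theorem choose_add (ρ m : ℕ) : (ρ + m).choose 2 = m.choose 2 + ρ * m + ρ.choose 2 := by
  induction m with
  | zero => simp
  | succ m ih =>
    have h1 : (ρ + (m + 1)).choose 2 = (ρ + m) + (ρ + m).choose 2 := by
      rw [← add_assoc, Nat.choose_succ_succ' (ρ + m) 1, Nat.choose_one_right]
    have h2 : (m + 1).choose 2 = m + m.choose 2 := by
      rw [Nat.choose_succ_succ' m 1, Nat.choose_one_right]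
    rw [h1, h2, ih]
    ring

theorem eR_add (ρ s : ℕ) : eR ρ (ρ + s) = 3 ^ (ρ.choose 2) / In ρ ρ * eT s := by
  unfold eR eT
  rw [add_assoc, muR_add, choose_add, abs_div, abs_of_pos (mul_pos (In_pos' le_rfl) (by positivity) :
    0 < In ρ ρ * (3 : ℝ) ^ (ρ * (s + 1))), pow_add, pow_add]
  have h2 : In ρ ρ ≠ 0 := (In_pos' le_rfl).ne'
  have h4 : (3 : ℝ) ^ (ρ * (s + 1)) ≠ 0 := by positivity
  field_simp

end QE

theorem t_QR : S_QR := by
  intro ρ t r hρ
  obtain ⟨t', rfl⟩ := Nat.exists_eq_add_of_le hρ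
  by_cases hr : r < ρ
  · have h0 : ∑ d ∈ range (ρ + t' + 1), muR ρ d * In d r = 0 := by
      refine sum_eq_zero fun d _ => ?_
      by_cases hd : d < ρ
      · rw [QE.muR_lt hd, zero_mul]
      · rw [QE.In_lt (lt_of_lt_of_le hr (not_lt.1 hd)), mul_zero]
    rw [if_neg (by omega), h0, sub_zero, abs_zero]
    exact mul_nonneg (abs_nonneg _) (Pool.Agent.H451.JL.QL.In_nonneg _ _)
  · obtain ⟨n, rfl⟩ := Nat.exists_eq_add_of_le (not_lt.1 hr)
    have hc : 0 ≤ In ρ (ρ + n) / In ρ ρ :=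
      div_nonneg (Pool.Agent.H451.JL.QL.In_nonneg _ _) (Pool.Agent.H451.JL.QL.In_nonneg _ _)
    have h1 := mul_le_mul_of_nonneg_left (Pool.Agent.H451.JL.t_Q t' n) hc
    have e1 : (if ρ + n = ρ then (1 : ℝ) else 0) =
        In ρ (ρ + n) / In ρ ρ * (if n = 0 then (1 : ℝ) else 0) := by
      by_cases hn : n = 0
      · subst hn
        rw [if_pos (add_zero ρ), if_pos rfl, add_zero, div_self (QE.In_pos' le_rfl).ne', mul_one]
      · rw [if_neg hn, if_neg (by omega), mul_zero]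
    have e2 : |muR ρ (ρ + t' + 1)| * In (ρ + t' + 1) (ρ + n) =
        In ρ (ρ + n) / In ρ ρ * (|mu (t' + 1)| * In (t' + 1) n) := by
      have h2 := QE.muR_mul ρ (t' + 1) n
      have h3 := congrArg abs h2
      rw [abs_mul, abs_mul, abs_mul, abs_of_nonneg hc,
        abs_of_nonneg (Pool.Agent.H451.JL.QL.In_nonneg _ _),
        abs_of_nonneg (Pool.Agent.H451.JL.QL.In_nonneg _ _)] at h3
      exact h3
    rw [QE.sum_mul, e2, e1, ← mul_sub, abs_mul, abs_of_nonneg hc]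
    exact h1

theorem t_ER : S_ER := by
  intro ρ
  rw [← Filter.tendsto_add_atTop_iff_nat ρ]
  have h1 : (fun n => eR ρ (n + ρ)) = fun s => 3 ^ (ρ.choose 2) / In ρ ρ * eT s := by
    funext s
    rw [add_comm s ρ]
    exact QE.eR_add ρ s
  rw [h1]
  have h2 : Filter.Tendsto eT Filter.atTop (nhds 0) := by
    refine squeeze_zero (fun t => (Pool.Agent.H451.JL.t_E t).1)
      (fun t => (Pool.Agent.H451.JL.t_E t).2) ?_
    exact tendsto_pow_atTop_nhds_zero_of_lt_one (by norm_num) (by norm_num)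
  have h3 := h2.const_mul (3 ^ (ρ.choose 2) / In ρ ρ)
  rw [mul_zero] at h3
  exact h3

end Pool.Agent.H451.JR
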