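import Pool.Agent.H451.JR.Stm

/-!
# JR-SUM: the limits add up to one

Euler's identities: `∏ (1 + q ^ i) = ∑ q ^ (r (r + 1) / 2) / ((1 - q) ⋯ (1 - q ^ r))` and
`∏ (1 + q ^ i) * ∏ (1 - q ^ (2 i - 1)) = 1`, for `q = 1 / 3`.
-/

set_option autoImplicit false

open Finset Filter

namespace Pool.Agent.H451.JR.SUM

open Pool.Agent.Y703.XK (c9)
open Pool.Agent.Y703.XL (cr)

/-- the terms -/
noncomputable def Lr (r : ℕ) : ℝ := 1 / ∏ i ∈ range r, ((3 : ℝ) ^ (i + 1) - 1)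

/-- the truncated products -/
noncomputable def Rq (n r : ℕ) : ℝ := ∏ i ∈ range r, (1 - (1 / 3 : ℝ) ^ (n - i))

theorem den_pos (r : ℕ) : 0 < ∏ i ∈ range r, ((3 : ℝ) ^ (i + 1) - 1) := by
  refine prod_pos fun i _ => ?_
  have : (1 : ℝ) < 3 ^ (i + 1) := one_lt_pow₀ (by norm_num) (by omega)
  linarith

theorem Lr_pos (r : ℕ) : 0 < Lr r := one_div_pos.2 (den_pos r)

theorem Lr_succ (r : ℕ) : Lr r = Lr (r + 1) * ((3 : ℝ) ^ (r + 1) - 1) := by
  have h1 : (1 : ℝ) < 3 ^ (r + 1) := one_lt_pow₀ (by norm_num) (by omega)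
  have h2 : (3 : ℝ) ^ (r + 1) - 1 ≠ 0 := by linarith
  have h3 := (den_pos r).ne'
  unfold Lr
  rw [prod_range_succ]
  field_simp

theorem Lr_le (r : ℕ) : Lr r ≤ (1 / 2 : ℝ) ^ r := by
  have h : (2 : ℝ) ^ r ≤ ∏ i ∈ range r, ((3 : ℝ) ^ (i + 1) - 1) := by
    have : (2 : ℝ) ^ r = ∏ _i ∈ range r, (2 : ℝ) := by rw [prod_const, card_range]
    rw [this]
    refine prod_le_prod (fun _ _ => by norm_num) fun i _ => ?_
    have : (3 : ℝ) ^ 1 ≤ 3 ^ (i + 1) := pow_le_pow_right₀ (by norm_num) (by omega)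
    linarith
  unfold Lr
  rw [one_div_pow]
  exact one_div_le_one_div_of_le (by positivity) h

theorem Lr_summable : Summable Lr :=
  Summable.of_nonneg_of_le (fun r => (Lr_pos r).le) Lr_le
    (summable_geometric_of_lt_one (by norm_num) (by norm_num))

theorem Rq_zero (n : ℕ) : Rq n 0 = 1 := by
  unfold Rq; rw [prod_range_zero]

theorem Rq_of_lt {n r : ℕ} (h : n < r) : Rq n r = 0 := by
  unfold Rq
  refine prod_eq_zero (mem_range.2 h) ?_
  rw [Nat.sub_self, pow_zero, sub_self]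

theorem Rq_succ (n r : ℕ) : Rq n (r + 1) = Rq n r * (1 - (1 / 3 : ℝ) ^ (n - r)) := by
  unfold Rq; rw [prod_range_succ]

theorem Rq_succ' (n r : ℕ) : Rq (n + 1) (r + 1) = Rq n r * (1 - (1 / 3 : ℝ) ^ (n + 1)) := by
  unfold Rq
  rw [prod_range_succ']
  congr 1
  exact prod_congr rfl fun i _ => by rw [Nat.add_sub_add_right]

theorem fac_mem (k : ℕ) : 0 ≤ 1 - (1 / 3 : ℝ) ^ k ∧ 1 - (1 / 3 : ℝ) ^ k ≤ 1 := by
  have h1 : (1 / 3 : ℝ) ^ k ≤ 1 := pow_le_one₀ (by norm_num) (by norm_num)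
  have h2 : 0 ≤ (1 / 3 : ℝ) ^ k := by positivity
  constructor <;> linarith

theorem Rq_nonneg (n r : ℕ) : 0 ≤ Rq n r := prod_nonneg fun _ _ => (fac_mem _).1

theorem Rq_le (n r : ℕ) : Rq n r ≤ 1 := prod_le_one (fun _ _ => (fac_mem _).1) fun _ _ => (fac_mem _).2

/-- the recursion -/
theorem rec_eq (n r : ℕ) : Lr (r + 1) * Rq (n + 1) (r + 1) =
    Lr (r + 1) * Rq n (r + 1) + (1 / 3 : ℝ) ^ (n + 1) * (Lr r * Rq n r) := by
  rcases Nat.lt_or_ge n r with h | h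
  · rw [Rq_of_lt h, Rq_of_lt (by omega : n < r + 1), Rq_of_lt (by omega : n + 1 < r + 1)]
    ring
  · rw [Rq_succ', Rq_succ, Lr_succ r]
    obtain ⟨m, rfl⟩ := Nat.exists_eq_add_of_le h
    have e1 : r + m - r = m := by omega
    have e2 : (1 / 3 : ℝ) ^ (r + m + 1) = (1 / 3 : ℝ) ^ m * (1 / 3 : ℝ) ^ (r + 1) := by
      rw [← pow_add]; congr 1; omega
    have e3 : (1 / 3 : ℝ) ^ (r + 1) * (3 : ℝ) ^ (r + 1) = 1 := by
      rw [← mul_pow]; norm_num
    rw [e1, e2]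
    linear_combination (-(Lr (r + 1)) * Rq (r + m) r * (1 / 3 : ℝ) ^ m) * e3

/-- the finite identity -/
theorem fin_id (n : ℕ) : ∀ K : ℕ, n < K →
    ∏ i ∈ range n, (1 + (1 / 3 : ℝ) ^ (i + 1)) = ∑ r ∈ range K, Lr r * Rq n r := by
  induction n with
  | zero =>
    intro K hK
    obtain ⟨K, rfl⟩ : ∃ K', K = K' + 1 := ⟨K - 1, by omega⟩
    rw [prod_range_zero, sum_range_succ', sum_eq_zero, zero_add, Rq_zero, mul_one]
    · unfold Lr
      rw [prod_range_zero, div_one]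
    · intro r _
      rw [Rq_of_lt (by omega), mul_zero]
  | succ n ih =>
    intro K hK
    obtain ⟨K, rfl⟩ : ∃ K', K = K' + 1 := ⟨K - 1, by omega⟩
    rw [sum_range_succ']
    have h1 : ∑ r ∈ range K, Lr (r + 1) * Rq (n + 1) (r + 1) =
        ∑ r ∈ range K, Lr (r + 1) * Rq n (r + 1) +
          (1 / 3 : ℝ) ^ (n + 1) * ∑ r ∈ range K, Lr r * Rq n r := by
      rw [mul_sum, ← sum_add_distrib]
      exact sum_congr rfl fun r _ => rec_eq n r
    have h2 := ih (K + 1) (by omega)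
    have h3 := ih K (by omega)
    rw [sum_range_succ', Rq_zero] at h2
    rw [h1, Rq_zero, ← h3, prod_range_succ]
    rw [h2] at h3 ⊢
    linear_combination (-(1 / 3 : ℝ) ^ (n + 1)) * h3 + (1 / 3 : ℝ) ^ (n + 1) * h3

theorem lim_Lr : Tendsto (fun n : ℕ => ∏ i ∈ range n, (1 + (1 / 3 : ℝ) ^ (i + 1))) atTop
    (nhds (∑' r, Lr r)) := by
  have h1 : ∀ n : ℕ, ∏ i ∈ range n, (1 + (1 / 3 : ℝ) ^ (i + 1)) = ∑' r, Lr r * Rq n r := by
    intro n
    rw [fin_id n (n + 1) (by omega), tsum_eq_sum]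
    intro r hr
    rw [mem_range, not_lt] at hr
    rw [Rq_of_lt (by omega), mul_zero]
  have h2 : Tendsto (fun n : ℕ => ∑' r, Lr r * Rq n r) atTop (nhds (∑' r, Lr r)) := by
    refine tendsto_tsum_of_dominated_convergence Lr_summable ?_ ?_
    · intro r
      have h3 : Tendsto (fun n : ℕ => Rq n r) atTop (nhds 1) := by
        unfold Rq
        have h4 : Tendsto (fun n : ℕ => ∏ i ∈ range r, (1 - (1 / 3 : ℝ) ^ (n - i))) atTop
            (nhds (∏ i ∈ range r, (1 : ℝ))) := by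
          refine tendsto_finsetProd _ fun i _ => ?_
          have h5 : Tendsto (fun n : ℕ => (1 / 3 : ℝ) ^ (n - i)) atTop (nhds 0) :=
            (tendsto_pow_atTop_nhds_zero_of_lt_one (by norm_num) (by norm_num)).comp
              (tendsto_sub_atTop_nat i)
          have h6 := (tendsto_const_nhds (x := (1 : ℝ))).sub h5
          rwa [sub_zero] at h6
        rwa [prod_const_one] at h4
      have h7 := h3.const_mul (Lr r)
      rwa [mul_one] at h7
    · refine Eventually.of_forall fun n r => ?_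
      rw [Real.norm_of_nonneg (mul_nonneg (Lr_pos r).le (Rq_nonneg n r))]
      exact mul_le_of_le_one_right (Lr_pos r).le (Rq_le n r)
  exact h2.congr fun n => (h1 n).symm

/-- the product of the even and of the odd factors -/
theorem prod_id (n : ℕ) : (∏ i ∈ range n, (1 + (1 / 3 : ℝ) ^ (i + 1))) *
    (∏ i ∈ range n, (1 - (1 / 3 : ℝ) ^ (2 * i + 1))) = ∏ i ∈ range n, (1 - (1 / 3 : ℝ) ^ (n + 1 + i)) := by
  induction n with
  | zero => simp
  | succ n ih =>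
    have h1 : ∏ i ∈ range (n + 2), (1 - (1 / 3 : ℝ) ^ (n + 1 + i)) =
        (∏ i ∈ range n, (1 - (1 / 3 : ℝ) ^ (n + 1 + i))) * (1 - (1 / 3 : ℝ) ^ (2 * n + 1)) *
          (1 - (1 / 3 : ℝ) ^ (2 * n + 2)) := by
      have e1 : n + 1 + n = 2 * n + 1 := by omega
      have e2 : n + 1 + (n + 1) = 2 * n + 2 := by omega
      rw [prod_range_succ, prod_range_succ, e1, e2]
    have h2 : ∏ i ∈ range (n + 2), (1 - (1 / 3 : ℝ) ^ (n + 1 + i)) =
        (∏ i ∈ range (n + 1), (1 - (1 / 3 : ℝ) ^ (n + 1 + 1 + i))) * (1 - (1 / 3 : ℝ) ^ (n + 1)) := by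
      rw [prod_range_succ' _ (n + 1), add_zero]
      congr 1
      exact prod_congr rfl fun i _ => by congr 2; omega
    have h3 : (1 : ℝ) - (1 / 3 : ℝ) ^ (n + 1) ≠ 0 := by
      have : (1 / 3 : ℝ) ^ (n + 1) < 1 := pow_lt_one₀ (by norm_num) (by norm_num) (by omega)
      linarith
    apply mul_right_cancel₀ h3
    rw [← h2, h1, ← ih, prod_range_succ, prod_range_succ]
    have e : (1 / 3 : ℝ) ^ (2 * n + 2) = (1 / 3 : ℝ) ^ (n + 1) * (1 / 3 : ℝ) ^ (n + 1) := by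
      rw [← pow_add]; congr 1; omega
    rw [e]
    ring

theorem lim_one : Tendsto (fun n : ℕ => ∏ i ∈ range n, (1 - (1 / 3 : ℝ) ^ (n + 1 + i))) atTop
    (nhds 1) := by
  have h1 : Tendsto (fun n : ℕ => 1 - (n : ℝ) * (1 / 3 : ℝ) ^ n) atTop (nhds 1) := by
    have := (tendsto_const_nhds (x := (1 : ℝ))).sub
      (tendsto_self_mul_const_pow_of_lt_one (r := (1 / 3 : ℝ)) (by norm_num) (by norm_num))
    rwa [sub_zero] at this
  refine tendsto_of_tendsto_of_tendsto_of_le_of_le h1 tendsto_const_nhds ?_ ?_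
  · intro n
    have h2 : (1 - (1 / 3 : ℝ) ^ n) ^ n ≤ ∏ i ∈ range n, (1 - (1 / 3 : ℝ) ^ (n + 1 + i)) := by
      have : (1 - (1 / 3 : ℝ) ^ n) ^ n = ∏ _i ∈ range n, (1 - (1 / 3 : ℝ) ^ n) := by
        rw [prod_const, card_range]
      rw [this]
      refine prod_le_prod (fun _ _ => (fac_mem n).1) fun i _ => ?_
      have : (1 / 3 : ℝ) ^ (n + 1 + i) ≤ (1 / 3 : ℝ) ^ n :=
        pow_le_pow_of_le_one (by norm_num) (by norm_num) (by omega)
      linarith
    have h3 := one_add_mul_le_pow (a := -(1 / 3 : ℝ) ^ n)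
      (by have := (fac_mem n).1; linarith) n
    have h4 : 1 + (n : ℝ) * -(1 / 3 : ℝ) ^ n = 1 - (n : ℝ) * (1 / 3 : ℝ) ^ n := by ring
    have h5 : 1 + -(1 / 3 : ℝ) ^ n = 1 - (1 / 3 : ℝ) ^ n := by ring
    rw [h4, h5] at h3
    exact h3.trans h2
  · intro n
    exact prod_le_one (fun _ _ => (fac_mem _).1) fun _ _ => (fac_mem _).2

theorem lim_c9 : Tendsto (fun n : ℕ => ∏ i ∈ range n, (1 - (1 / 3 : ℝ) ^ (2 * i + 1))) atTop
    (nhds (∏' i : ℕ, (1 - (1 / 3 : ℝ) ^ (2 * i + 1)))) := by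
  apply Multipliable.tendsto_prod_tprod_nat
  have h1 : Summable (fun i : ℕ => -(1 / 3 : ℝ) ^ (2 * i + 1)) := by
    refine Summable.neg ?_
    have : (fun i : ℕ => (1 / 3 : ℝ) ^ (2 * i + 1)) = fun i : ℕ => (1 / 9 : ℝ) ^ i * (1 / 3) := by
      funext i
      rw [pow_succ, pow_mul]
      norm_num
    rw [this]
    exact (summable_geometric_of_lt_one (by norm_num) (by norm_num)).mul_right _
  have h2 : Multipliable (fun i : ℕ => 1 + -(1 / 3 : ℝ) ^ (2 * i + 1)) :=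
    multipliable_one_add_of_summable h1.norm
  simpa only [← sub_eq_add_neg] using h2

end Pool.Agent.H451.JR.SUM

namespace Pool.Agent.H451.JR

open Pool.Agent.Y703.XK (c9)
open Pool.Agent.Y703.XL (cr)

/-- **JR-SUM** -/
theorem t_SUM : S_SUM := by
  have h1 := SUM.lim_Lr.mul SUM.lim_c9
  have h2 : (∑' r, SUM.Lr r) * (∏' i : ℕ, (1 - (1 / 3 : ℝ) ^ (2 * i + 1))) = 1 := by
    refine tendsto_nhds_unique h1 (SUM.lim_one.congr fun n => (SUM.prod_id n).symm)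
  have h3 : HasSum (fun r => c9 * SUM.Lr r) (c9 * ∑' r, SUM.Lr r) :=
    SUM.Lr_summable.hasSum.mul_left c9
  have h4 : c9 * ∑' r, SUM.Lr r = 1 := by
    rw [mul_comm]
    exact h2
  rw [h4] at h3
  have h5 : (fun r => c9 * SUM.Lr r) = cr := by
    funext r
    unfold cr SUM.Lr
    rw [mul_one_div]
  rw [h5] at h3
  exact h3

end Pool.Agent.H451.JR
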