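import Pool.Agent.H451.JR.Stm
import Pool.Agent.H451.JL.TR

/-!
# JR-TR (helper628)
-/

set_option autoImplicit false

open scoped Classical

namespace Pool.Agent.H451.JR

open Finset
open Pool.Agent.H451.JL (In)

namespace TR

/-- the moments of a product of combinations of the functions `In d` -/
lemma tr_moment (k t : ℕ) (a : Fin k → ℕ → ℝ) (Ω : Type) [Fintype Ω] (r : Ω → Fin k → ℕ)
    (δ : ℝ)
    (hM : ∀ d : Fin k → ℕ, (∀ j, d j ≤ t + 1) →
      |(∑ ω, ∏ j, In (d j) (r ω j)) / (Fintype.card Ω : ℝ) -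
        ∏ j, (3 : ℝ) ^ ((d j).choose 2)| ≤ δ) :
    |(∑ ω, ∏ j, ∑ d ∈ range (t + 2), a j d * In d (r ω j)) / (Fintype.card Ω : ℝ) -
      ∏ j, (∑ d ∈ range (t + 2), a j d * (3 : ℝ) ^ (d.choose 2))| ≤
      (∏ j, ∑ d ∈ range (t + 2), |a j d|) * δ := by
  have h1 : (∑ ω, ∏ j, ∑ d ∈ range (t + 2), a j d * In d (r ω j)) / (Fintype.card Ω : ℝ) =
      ∑ p ∈ Fintype.piFinset (fun _ : Fin k => range (t + 2)), (∏ j, a j (p j)) *
        ((∑ ω, ∏ j, In (p j) (r ω j)) / (Fintype.card Ω : ℝ)) := by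
    have : (∑ ω, ∏ j, ∑ d ∈ range (t + 2), a j d * In d (r ω j)) =
        ∑ p ∈ Fintype.piFinset (fun _ : Fin k => range (t + 2)), (∏ j, a j (p j)) *
        (∑ ω, ∏ j, In (p j) (r ω j)) := by
      simp_rw [Finset.prod_univ_sum, Finset.mul_sum]
      rw [Finset.sum_comm]
      refine Finset.sum_congr rfl fun p _ => Finset.sum_congr rfl fun ω _ => ?_
      rw [Finset.prod_mul_distrib]
    rw [this, Finset.sum_div]
    refine Finset.sum_congr rfl fun p _ => ?_
    rw [mul_div_assoc]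
  have h2 : ∏ j, (∑ d ∈ range (t + 2), a j d * (3 : ℝ) ^ (d.choose 2)) =
      ∑ p ∈ Fintype.piFinset (fun _ : Fin k => range (t + 2)), (∏ j, a j (p j)) *
        ∏ j, (3 : ℝ) ^ ((p j).choose 2) := by
    rw [Finset.prod_univ_sum]
    refine Finset.sum_congr rfl fun p _ => ?_
    rw [Finset.prod_mul_distrib]
  have h3 : ∏ j, (∑ d ∈ range (t + 2), |a j d|) =
      ∑ p ∈ Fintype.piFinset (fun _ : Fin k => range (t + 2)), ∏ j, |a j (p j)| := by
    rw [Finset.prod_univ_sum]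
  rw [h1, h2, h3, ← Finset.sum_sub_distrib, Finset.sum_mul]
  refine (Finset.abs_sum_le_sum_abs _ _).trans (Finset.sum_le_sum fun p hp => ?_)
  rw [← mul_sub, abs_mul, Finset.abs_prod]
  refine mul_le_mul_of_nonneg_left (hM p fun j => ?_) (Finset.prod_nonneg fun j _ => abs_nonneg _)
  have := (Fintype.mem_piFinset.mp hp) j
  rw [Finset.mem_range] at this
  omega

end TR

theorem t_TRR : S_QR → S_TRR := by
  intro hQ k t ρ hρ
  set a : Fin k → ℕ → ℝ := fun j d => if d ≤ t then muR (ρ j) d else 0 with ha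
  set b : Fin k → ℕ → ℝ := fun j d =>
    if d = 0 then 1 else if d = t + 1 then |muR (ρ j) (t + 1)| else 0 with hb
  refine ⟨(∏ j, ∑ d ∈ range (t + 2), |a j d|) + (∏ j, ∑ d ∈ range (t + 2), |b j d|), ?_, ?_⟩
  · exact add_nonneg (Finset.prod_nonneg fun _ _ => Finset.sum_nonneg fun _ _ => abs_nonneg _)
      (Finset.prod_nonneg fun _ _ => Finset.sum_nonneg fun _ _ => abs_nonneg _)
  intro Ω _ r δ hc hδ hM
  have hcR : (0 : ℝ) < Fintype.card Ω := by exact_mod_cast hc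
  have hA := TR.tr_moment k t a Ω r δ hM
  have hB := TR.tr_moment k t b Ω r δ hM
  -- identification of the sums
  have a1 : ∀ (j : Fin k) (g : ℕ → ℝ), ∑ d ∈ range (t + 2), a j d * g d =
      ∑ d ∈ range (t + 1), muR (ρ j) d * g d := by
    intro j g
    rw [Finset.sum_range_succ]
    have : a j (t + 1) = 0 := by simp [ha]
    rw [this, zero_mul, add_zero]
    refine Finset.sum_congr rfl fun d hd => ?_
    rw [Finset.mem_range] at hd
    have : a j d = muR (ρ j) d := by simp [ha, Nat.lt_succ_iff.mp hd]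
    rw [this]
  have b1 : ∀ (j : Fin k) (g : ℕ → ℝ), ∑ d ∈ range (t + 2), b j d * g d =
      g 0 + |muR (ρ j) (t + 1)| * g (t + 1) := by
    intro j g
    rw [Finset.sum_range_succ, Finset.sum_range_succ']
    have h1 : b j (t + 1) = |muR (ρ j) (t + 1)| := by simp [hb]
    have h0 : b j 0 = 1 := by simp [hb]
    have h2 : ∑ d ∈ range t, b j (d + 1) * g (d + 1) = 0 := by
      refine Finset.sum_eq_zero fun d hd => ?_
      rw [Finset.mem_range] at hd
      have : b j (d + 1) = 0 := by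
        simp only [hb]
        rw [if_neg (by omega), if_neg (by omega)]
      rw [this, zero_mul]
    rw [h1, h0, h2]
    ring
  have eA : ∀ j, (∑ d ∈ range (t + 2), a j d * (3 : ℝ) ^ (d.choose 2)) = sR (ρ j) t := by
    intro j
    rw [a1 j (fun d => (3 : ℝ) ^ (d.choose 2))]
    rfl
  have eB : ∀ j, (∑ d ∈ range (t + 2), b j d * (3 : ℝ) ^ (d.choose 2)) = 1 + eR (ρ j) t := by
    intro j
    rw [b1 j (fun d => (3 : ℝ) ^ (d.choose 2))]
    simp [eR]
  simp only [eA] at hA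
  simp only [eB] at hB
  set Pf : Ω → Fin k → ℝ := fun ω j => ∑ d ∈ range (t + 1), muR (ρ j) d * In d (r ω j) with hPf
  set Ef : Ω → Fin k → ℝ := fun ω j => |muR (ρ j) (t + 1)| * In (t + 1) (r ω j) with hEf
  have cA : ∀ ω, ∏ j, ∑ d ∈ range (t + 2), a j d * In d (r ω j) = ∏ j, Pf ω j := by
    intro ω
    refine Finset.prod_congr rfl fun j _ => ?_
    rw [a1 j (fun d => In d (r ω j))]
  have cB : ∀ ω, ∏ j, ∑ d ∈ range (t + 2), b j d * In d (r ω j) = ∏ j, (1 + Ef ω j) := by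
    intro ω
    refine Finset.prod_congr rfl fun j _ => ?_
    rw [b1 j (fun d => In d (r ω j)), Pool.Agent.H451.JL.In_zero]
  simp_rw [cA] at hA
  simp_rw [cB] at hB
  -- the indicator
  have hI : ((univ.filter fun ω => ∀ j, r ω j = ρ j).card : ℝ) =
      ∑ ω, ∏ j, (if r ω j = ρ j then (1 : ℝ) else 0) := by
    rw [Finset.card_filter]
    push_cast
    refine Finset.sum_congr rfl fun ω _ => ?_
    rw [Finset.prod_ite_zero]
    simp
  have hdiff : |(∑ ω, ∏ j, (if r ω j = ρ j then (1 : ℝ) else 0)) - ∑ ω, ∏ j, Pf ω j| ≤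
      (∑ ω, ∏ j, (1 + Ef ω j)) - Fintype.card Ω := by
    rw [← Finset.sum_sub_distrib]
    refine (Finset.abs_sum_le_sum_abs _ _).trans ?_
    have : (∑ ω, ∏ j, (1 + Ef ω j)) - (Fintype.card Ω : ℝ) = ∑ ω : Ω, (∏ j, (1 + Ef ω j) - 1) := by
      rw [Finset.sum_sub_distrib]
      simp
    rw [this]
    refine Finset.sum_le_sum fun ω _ => ?_
    refine (Pool.Agent.H451.JL.tr_prod univ (fun j => if r ω j = ρ j then (1 : ℝ) else 0) (Pf ω)
      (Ef ω) ?_ ?_).1
    · intro j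
      split_ifs <;> simp
    · intro j
      exact hQ (ρ j) t (r ω j) (hρ j)
  rw [hI]
  have hdiff2 : |(∑ ω, ∏ j, (if r ω j = ρ j then (1 : ℝ) else 0)) / (Fintype.card Ω : ℝ) -
      (∑ ω, ∏ j, Pf ω j) / (Fintype.card Ω : ℝ)| ≤
      (∑ ω, ∏ j, (1 + Ef ω j)) / (Fintype.card Ω : ℝ) - 1 := by
    rw [← sub_div, abs_div, abs_of_pos hcR, div_le_iff₀ hcR, sub_mul, div_mul_cancel₀ _ hcR.ne']
    linarith
  rw [abs_le] at *
  obtain ⟨A1, A2⟩ := hA
  obtain ⟨B1, B2⟩ := hB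
  obtain ⟨D1, D2⟩ := hdiff2
  constructor <;> linarith

end Pool.Agent.H451.JR
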