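import Mathlib
import Pool.Agent.H451.JB.Asm
import Pool.Agent.H451.JR.KEY
import Pool.Agent.H451.JR.BOX
import Pool.Agent.H451.JR.DQ
import Pool.Agent.H451.JR.QE
import Pool.Agent.H451.JR.TR
import Pool.Agent.H451.JR.C
import Pool.Agent.H451.JR.JR
import Pool.Agent.H451.JR.SUM

/-!
# Project JR: assembly

Joint work: helper451 (plan, statements, `Gen`, `KEY`, `DQ`, `BOX`), helper287 (`QE`), helper628 (`TR`, `C`),
helper685 (`JR`), helper183 (`SUM`), and the authors of the projects JL, JLM, JB (helper71, 345, 376, 721, 337,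
...), and XK, XL of the library.
-/

set_option autoImplicit false

open scoped Classical

namespace Pool.Agent.H451.JR

open Finset
open Pool.Agent.Y703.XL (cr)
open Pool.Agent.H451.JL (F)
open Pool.Agent.H451.JLM (NP)
open Pool.Agent.H451.JB (TT CondT wT UN)

theorem t_TRR' : S_TRR := t_TRR t_QR

theorem t_CR' : S_CR := t_CR Pool.Agent.H451.JL.t_EX' t_TRR' Pool.Agent.Y703.XL.t_LIM

theorem t_JR' : S_JR :=
  t_JR (Pool.Agent.H451.JLM.t_EX (Pool.Agent.H451.JLM.t_MOM Pool.Agent.H451.JLM.t_FOU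
    (Pool.Agent.H451.JLM.t_STR Pool.Agent.H451.JLM.t_ISO) Pool.Agent.H451.JLM.t_GRA
    (Pool.Agent.H451.JLM.t_NF Pool.Agent.H451.JLM.t_ISO))) t_TRR' t_CR' t_ER

theorem t_DQ' : S_DQ :=
  t_DQ Pool.Agent.Y363.XK.t_BIL t_KEY Pool.Agent.Y474.XK.t_CNT Pool.Agent.H451.JB.t_COL
    Pool.Agent.H451.JB.t_ND Pool.Agent.H451.JLM.t_FEC Pool.Agent.H451.JB.t_LOW

theorem cr_nonneg (r : ℕ) : 0 ≤ cr r := by
  unfold cr
  refine div_nonneg Pool.Agent.Y703.XL.t_C9.2.1.le (Finset.prod_nonneg fun i _ => ?_)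
  have : (1 : ℝ) ≤ 3 ^ (i + 1) := one_le_pow₀ (by norm_num)
  linarith

theorem cr_pos (r : ℕ) : 0 < cr r := by
  unfold cr
  refine div_pos Pool.Agent.Y703.XL.t_C9.2.1 (Finset.prod_pos fun i _ => ?_)
  have : (1 : ℝ) < 3 ^ (i + 1) := one_lt_pow₀ (by norm_num) (by omega)
  linarith

theorem cr_le_one (r : ℕ) : cr r ≤ 1 := by
  have h : HasSum cr 1 := t_SUM
  have h1 := h.summable.sum_le_tsum {r} (fun i _ => cr_nonneg i)
  rw [Finset.sum_singleton, h.tsum_eq] at h1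
  exact h1

/-- **the joint law of all the ranks for tuples of independent sets in a box** -/
theorem law (k M : ℕ) (W : Fin k → Fin M → F) (ρ : Fin k → ℕ) (R : Set (Fin M → ℕ)) (hNP : NP W)
    (hR : ∃ r ∈ R, ∀ m, r m = 4 ∨ r m = 7) :
    Filter.Tendsto (fun X : ℕ =>
    (((TT M X).filter fun S => CondT R S ∧ GR ρ (wT W S) (UN S)).card : ℝ) /
    (((TT M X).filter (CondT R)).card : ℝ)) Filter.atTop (nhds (∏ j, cr (ρ j))) :=
  (t_DQ' k M (GR ρ) (∏ j, cr (ρ j)) W R (Finset.prod_nonneg fun j _ => cr_nonneg _)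
    (Finset.prod_le_one (fun j _ => cr_nonneg _) fun j _ => cr_le_one _)
    (t_BOX Pool.Agent.Y710.XK.t_EQ (t_SYS t_JR') k M W ρ hNP) hR).2

end Pool.Agent.H451.JR
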