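import Mathlib
import Pool.Agent.H451.BB.Def3
import Pool.Graph.R_seed8.Y696.XL.SelK

/-!
# The ranks of the Selmer groups of a diagonal cubic hypersurface
-/

set_option autoImplicit false

namespace Pool.Agent.H451.CubT

open NumberField

/-- The limit law of the rank of one Selmer group:
`c / ((3 - 1) (9 - 1) ⋯ (3 ^ r - 1))`, `c = ∏ (1 - 3 ^ (-(2 i + 1))) = 0.6390…`, the product over `i ≥ 0`. -/
noncomputable def pr (r : ℕ) : ℝ :=
  (∏' i : ℕ, (1 - (1 / 3 : ℝ) ^ (2 * i + 1))) / ∏ i ∈ Finset.range r, ((3 : ℝ) ^ (i + 1) - 1)

/-- The Selmer group of the endomorphism `√-3` of the curve `E_S : y ^ 2 + D_S y = x ^ 3` has order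
`3 ^ (ρ S + 1)`, for all `S` (the order `3` is the smallest possible one: the classes of the torsion points).
`SelK D` is the group of the continuous cocycles of the absolute Galois group of `K` with values in the
kernel `{0, (0, 0), (0, -D)}` which are coboundaries in the curve over every completion of `K`; as the
kernel is rational these cocycles are homomorphisms, and different ones are not cohomologous. -/
def SelRk {K : Type} [Field K] [NumberField K] {m : ℕ} (a : Fin m → 𝓞 K)
    (ρ : Finset (Fin m) → ℕ) : Prop :=
  ∀ S : Finset (Fin m), S.card = (m - 3) / 2 →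
    (Pool.Agent.XL6.SelK ((DS a S : 𝓞 K) : K)).ncard = 3 ^ (ρ S + 1)

end Pool.Agent.H451.CubT
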