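import Mathlib
import Pool.Agent.H451.JB.Fin
import Pool.Agent.H451.JR.Asm

/-!
# Project JR: the ranks of the Selmer groups of the diagonal cubic hypersurfaces in a box
-/

set_option autoImplicit false
set_option linter.unusedVariables false
set_option linter.unusedSectionVars false

namespace Pool.Agent.H451.JR

open NumberField IsDedekindDomain Finset
open scoped Classical

open Pool.Agent.Y692.QS (Ei w toC nr)
open Pool.Agent.Y715.T.RecG (Pq)
open Pool.Agent.Y715.T.Rec (cs)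
open Pool.Agent.Y715.T.Gi Pool.Agent.Y715.T.Nr Pool.Agent.Y715.T.Df
open Pool.Agent.Y703.CT (Tw Dt pD a_ne)
open Pool.Agent.Y155.CT (a_mul a_cont)
open Pool.Agent.XL6 (SelK SelH KerV selK_card sel_card rk_le rank_le)
open Pool.Agent.Y696.CTK (parts)
open Pool.Agent.H451.BB
open Pool.Agent.H451.CubT
open Pool.Agent.H451.JL (F sw nW GW eD)
open Pool.Agent.H451.JLM (NP)
open Pool.Agent.H451.JB hiding t_KEY S_KEY S_DQ S_BOX t_DQ t_BOX t_DQ'
open Pool.Agent.Y703.XK (SS c9)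
open Pool.Agent.Y703.XL (cr)

/-- the number of the solutions is a power of three -/
theorem nW_pow (ω : Ei → F) (T : Finset Ei) (hne : (sw ω T).Nonempty) :
    ∃ r : ℕ, nW ω T = 3 ^ (r + 1) := by
  obtain ⟨s, hs⟩ : ∃ s : Finset Ei, s = sw ω T := ⟨_, rfl⟩
  rw [← hs] at hne
  haveI : Nonempty s := hne.to_subtype
  let V : Submodule (ZMod 3) (s → ZMod 3) :=
    { carrier := {v | ∀ π : s, ∑ ρ : s, cs π ρ * ω ρ * (v ρ - v π) = 0}
      zero_mem' := fun j => by simp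
      add_mem' := fun {a b} ha hb j => by
        have h1 := ha j
        have h2 := hb j
        have h3 : ∑ i : s, cs j i * ω i * ((a + b) i - (a + b) j) =
            ∑ i : s, cs j i * ω i * (a i - a j) + ∑ i : s, cs j i * ω i * (b i - b j) := by
          rw [← Finset.sum_add_distrib]
          exact Finset.sum_congr rfl fun i _ => by rw [Pi.add_apply, Pi.add_apply]; ring
        rw [h3, h1, h2, add_zero]
      smul_mem' := fun c a ha j => by
        have h1 := ha j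
        have h3 : ∑ i : s, cs j i * ω i * ((c • a) i - (c • a) j) =
            c * ∑ i : s, cs j i * ω i * (a i - a j) := by
          rw [Finset.mul_sum]
          exact Finset.sum_congr rfl fun i _ => by
            rw [Pi.smul_apply, Pi.smul_apply, smul_eq_mul, smul_eq_mul]; ring
        rw [h3, h1, mul_zero] }
  have h1 : nW ω T = Nat.card V := by
    unfold nW
    rw [← hs]
    rfl
  have h2 : Nat.card V = 3 ^ Module.finrank (ZMod 3) V := by
    rw [Module.natCard_eq_pow_finrank (K := ZMod 3), Nat.card_zmod]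
  have h3 : Module.finrank (ZMod 3) V ≠ 0 := by
    intro h0
    rw [h0, pow_zero] at h2
    have h4 : (fun _ => 1 : s → ZMod 3) ∈ V := fun j => by simp
    have h5 : Subsingleton V := (Nat.card_eq_one_iff_unique.1 h2).1
    have h6 : (⟨fun _ => 1, h4⟩ : V) = 0 := Subsingleton.elim _ _
    have h7 := congrFun (congrArg Subtype.val h6) (Classical.arbitrary s)
    exact one_ne_zero h7
  obtain ⟨r, hr⟩ := Nat.exists_eq_succ_of_ne_zero h3
  exact ⟨r, by rw [h1, h2, hr]⟩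

/-- **the order of the Selmer group and the rank** -/
theorem rank_nW {K : Type} [Field K] [NumberField K] (j : Ei ≃+* 𝓞 K) {T : Finset Ei}
    {ω : Ei → F} {c : Ei} (hT : ∀ π ∈ T, Pq π) (hc : c ≠ 0)
    (h9 : ¬ (9 : ℤ) ∣ nr (eD 1 ω T) - 1) :
    ∃ r : ℕ, (SelK ((j (c ^ 3 * eD 1 ω T) : 𝓞 K) : K)).ncard = 3 ^ (r + 1) ∧
      Module.finrank ℤ (E ((j (c ^ 3 * eD 1 ω T) : 𝓞 K) : K)).toAffine.Point ≤ 2 * r := by
  obtain ⟨s, hs⟩ : ∃ s : Finset Ei, s = sw ω T := ⟨_, rfl⟩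
  have hsT : ∀ ρ ∈ s, Pq ρ ∧ ω ρ ≠ 0 := by
    intro ρ hρ
    rw [hs, sw, mem_filter] at hρ
    exact ⟨hT ρ hρ.1, hρ.2⟩
  have hnes : s.Nonempty := by
    rw [Finset.nonempty_iff_ne_empty]
    intro h0
    apply h9
    unfold eD
    rw [← hs, h0, Finset.prod_empty]
    exact ⟨0, by decide⟩
  haveI : Nonempty s := hnes.to_subtype
  have hpD : eD 1 ω T = pD (fun x : s => (x : Ei)) (fun x : s => ω x) := by
    unfold eD pD
    rw [← hs, ← Finset.prod_coe_sort]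
    refine Finset.prod_congr rfl fun x _ => ?_
    rw [one_mul]
  have hD : Dt (fun x : s => (x : Ei)) (fun x : s => ω x) :=
    ⟨fun x => (hsT x x.2).1, fun x y hxy hd => hxy (Subtype.ext
      (Pool.Agent.Y699.E.eq_of_dvd (hsT y y.2).1 (hsT x x.2).1 hd)).symm,
      fun x => (hsT x x.2).2⟩
  have hne : eD 1 ω T ≠ 0 := by
    rw [hpD]
    exact Pool.Agent.Y153.CTRAM.ne_zero_of hD
  have hD0 : c ^ 3 * eD 1 ω T ≠ 0 := mul_ne_zero (pow_ne_zero 3 hc) hne
  obtain ⟨r, hr⟩ := nW_pow ω T (by rw [← hs]; exact hnes)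
  have hsel := selK_nW (K := K) j hT hc h9
  obtain ⟨e, i₀, hi, u, a, Ψ, g, hdata⟩ := parts.trf K j _ hD0
  have hTw := tw_cube hc hdata.1
  have hcard : (SelH hi a).ncard = 3 ^ (r + 1) := by
    rw [← selK_card hD0 hdata, hsel, hr]
  refine ⟨r, hsel.trans hr, ?_⟩
  have hfin : (SelH hi a).Finite := Set.finite_of_ncard_ne_zero (by rw [hcard]; positivity)
  rw [hpD] at hTw
  exact (rk_le hD0 hdata).trans (rank_le (a_mul hD0 hdata.1) (a_cont hD0 hdata.1) (a_ne hD hTw)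
    hfin hcard.le)

section K
variable {K : Type} [Field K] [NumberField K] [IsCyclotomicExtension {3} ℚ K] (j : Ei ≃+* 𝓞 K)

/-- the Selmer groups of a tuple -/
theorem ranks_tuple {m k : ℕ} {S : Fin m → Finset Ei} (hS : ∀ l, ∀ π ∈ S l, Pq π)
    (φ : Fin k → Finset (Fin m)) (hφ1 : ∀ i, (φ i).card = (m - 3) / 2)
    (hφ : ∀ T : Finset (Fin m), T.card = (m - 3) / 2 → ∃ i, φ i = T)
    (hc : CondT (RA m) S) (ρ : Finset (Fin m) → ℕ) :
    (GR (fun i => ρ (φ i)) (wT (WT φ) S) (UN S) ↔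
      ∀ T : Finset (Fin m), T.card = (m - 3) / 2 →
        (SelK ((DS (fun i => j (∏ π ∈ S i, π)) T : 𝓞 K) : K)).ncard = 3 ^ (ρ T + 1)) ∧
    ∀ T : Finset (Fin m), T.card = (m - 3) / 2 → ∃ r : ℕ,
      (SelK ((DS (fun i => j (∏ π ∈ S i, π)) T : 𝓞 K) : K)).ncard = 3 ^ (r + 1) ∧
      Module.finrank ℤ (E ((DS (fun i => j (∏ π ∈ S i, π)) T : 𝓞 K) : K)).toAffine.Point ≤
        2 * r := by
  rw [condT_iff] at hc
  have hU : ∀ π ∈ UN S, Pq π := fun π hπ => by
    obtain ⟨l, hl⟩ := (mem_UN S).1 hπ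
    exact hS l π hl
  have h4 : ∀ i, DS (fun i => j (∏ π ∈ S i, π)) (φ i) =
      j (DD (fun i => ∏ π ∈ S i, π) (φ i)) := by
    intro i
    unfold DS DD
    rw [map_mul, map_prod, map_prod]
  have h5 : ∏ π ∈ UN S, π ≠ 0 := by
    rw [Finset.prod_ne_zero_iff]
    exact fun π hπ => (hU π hπ).prime.ne_zero
  have h6 : ∀ i, ∏ π ∈ UN S, π ^ (ex φ S i π / 3) ≠ 0 := by
    intro i
    rw [Finset.prod_ne_zero_iff]
    exact fun π hπ => pow_ne_zero _ (hU π hπ).prime.ne_zero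
  have h9 : ∀ i, ¬ (9 : ℤ) ∣ nr (eD 1 (wT (WT φ) S i) (UN S)) - 1 := by
    intro i
    rw [← nr_DD φ S i hS]
    exact hc (φ i) (hφ1 i)
  have key : ∀ i, (SelK ((DS (fun i => j (∏ π ∈ S i, π)) (φ i) : 𝓞 K) : K)).ncard =
      nW (wT (WT φ) S i) (UN S) := by
    intro i
    rw [h4, DD_cube φ S i]
    exact selK_nW j hU (h6 i) (h9 i)
  refine ⟨⟨?_, ?_⟩, ?_⟩
  · intro h T hT
    obtain ⟨i, rfl⟩ := hφ T hT
    rw [key]
    exact h i
  · intro h i
    rw [← key]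
    exact h (φ i) (hφ1 i)
  · intro T hT
    obtain ⟨i, rfl⟩ := hφ T hT
    rw [h4, DD_cube φ S i]
    exact rank_nW j hU (h6 i) (h9 i)

end K

theorem final_ranks (K : Type) [Field K] [NumberField K] [IsCyclotomicExtension {3} ℚ K]
    (m : ℕ) (hm : m = 3 ∨ m = 5 ∨ m = 7) :
    (∀ a : Fin m → 𝓞 K, (∀ i, Cls (a i)) → AdmA a → ∀ T : Finset (Fin m),
      T.card = (m - 3) / 2 → ∃ r : ℕ, (SelK ((DS a T : 𝓞 K) : K)).ncard = 3 ^ (r + 1) ∧
        Module.finrank ℤ (E ((DS a T : 𝓞 K) : K)).toAffine.Point ≤ 2 * r) ∧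
    ∀ ρ : Finset (Fin m) → ℕ, Filter.Tendsto (fun X : ℕ =>
      ({a : Fin m → 𝓞 K | (∀ i, Cls (a i) ∧ Algebra.norm ℤ (a i) ≤ X) ∧ AdmA a ∧
        ∀ T : Finset (Fin m), T.card = (m - 3) / 2 →
          (SelK ((DS a T : 𝓞 K) : K)).ncard = 3 ^ (ρ T + 1)}.ncard : ℝ) /
      ({a : Fin m → 𝓞 K | (∀ i, Cls (a i) ∧ Algebra.norm ℤ (a i) ≤ X) ∧ AdmA a}.ncard : ℝ))
      Filter.atTop (nhds (∏ T ∈ powersetCard ((m - 3) / 2) (univ : Finset (Fin m)), cr (ρ T))) := by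
  obtain ⟨⟨j, hj⟩, -⟩ := Pool.Agent.Y455.CTK.jex K
  have hm0 : 0 < m := by omega
  obtain ⟨h, hh⟩ : ∃ h : ℕ, h = (m - 3) / 2 := ⟨_, rfl⟩
  have h2m : 2 * h < m := by omega
  have hcard : (powersetCard h (univ : Finset (Fin m))).card = m.choose h := by
    rw [card_powersetCard, card_univ, Fintype.card_fin]
  obtain ⟨ψ⟩ : Nonempty (Fin (m.choose h) ≃ powersetCard h (univ : Finset (Fin m))) :=
    ⟨(Finset.equivFinOfCardEq hcard).symm⟩
  obtain ⟨φ, hφ⟩ : ∃ φ : Fin (m.choose h) → Finset (Fin m), φ = fun i => (ψ i : Finset (Fin m)) :=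
    ⟨_, rfl⟩
  have hφ1 : Function.Injective φ := by
    rw [hφ]
    exact Subtype.val_injective.comp ψ.injective
  have hφ2 : ∀ i, (φ i).card = h := by
    intro i
    rw [hφ]
    exact (mem_powersetCard.1 (ψ i).2).2
  have hφ3 : ∀ T : Finset (Fin m), T.card = (m - 3) / 2 → ∃ i, φ i = T := by
    intro T hT
    obtain ⟨i, hi⟩ := ψ.surjective ⟨T, mem_powersetCard.2 ⟨subset_univ _, by rw [hT, hh]⟩⟩
    exact ⟨i, by rw [hφ]; show ((ψ i : _) : Finset (Fin m)) = T; rw [hi]⟩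
  have hNP : NP (WT φ) := WT_NP h2m φ hφ1 hφ2
  have hadm : ∀ X : ℕ, ({a : Fin m → 𝓞 K | (∀ i, Cls (a i) ∧ Algebra.norm ℤ (a i) ≤ X) ∧
      AdmA a}.ncard : ℝ) = (((TT m X).filter (CondT (RA m))).card : ℝ) := by
    intro X
    rw [box_eq j hj]
    congr 2
    exact filter_congr fun S _ => adm_tuple j hj S
  refine ⟨?_, ?_⟩
  · intro a h1 h2
    obtain ⟨X, hX⟩ : ∃ X : ℕ, ∀ i, Algebra.norm ℤ (a i) ≤ X := by
      refine ⟨∑ i, (Algebra.norm ℤ (a i)).natAbs, fun i => ?_⟩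
      have h4 := Finset.single_le_sum (f := fun i => (Algebra.norm ℤ (a i)).natAbs)
        (fun i _ => Nat.zero_le _) (mem_univ i)
      have h5 := Int.le_natAbs (a := Algebra.norm ℤ (a i))
      have h6 : (((Algebra.norm ℤ (a i)).natAbs : ℕ) : ℤ) ≤
        ((∑ i, (Algebra.norm ℤ (a i)).natAbs : ℕ) : ℤ) := by exact_mod_cast h4
      exact h5.trans h6
    obtain ⟨S, hS, rfl⟩ := box_ex j hj X a fun i => ⟨h1 i, hX i⟩
    have hc := (adm_tuple j hj S).1 h2
    exact (ranks_tuple j (TT_Pq hS) φ (fun i => by rw [hφ2, hh]) hφ3 hc fun _ => 0).2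
  · intro ρ
    have hlim := law _ m (WT φ) (fun i => ρ (φ i)) (RA m) hNP (RA_memT hm)
    have hsel : ∀ X : ℕ, ({a : Fin m → 𝓞 K | (∀ i, Cls (a i) ∧ Algebra.norm ℤ (a i) ≤ X) ∧
        AdmA a ∧ ∀ T : Finset (Fin m), T.card = (m - 3) / 2 →
          (SelK ((DS a T : 𝓞 K) : K)).ncard = 3 ^ (ρ T + 1)}.ncard : ℝ) =
        (((TT m X).filter fun S => CondT (RA m) S ∧
        GR (fun i => ρ (φ i)) (wT (WT φ) S) (UN S)).card : ℝ) := by
      intro X
      rw [box_eq j hj m X fun a => AdmA a ∧ ∀ T : Finset (Fin m), T.card = (m - 3) / 2 →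
          (SelK ((DS a T : 𝓞 K) : K)).ncard = 3 ^ (ρ T + 1)]
      refine congrArg _ ?_
      have h1 : ((TT m X).filter fun S => AdmA (fun i => j (∏ π ∈ S i, π)) ∧
          ∀ T : Finset (Fin m), T.card = (m - 3) / 2 →
          (SelK ((DS (fun i => j (∏ π ∈ S i, π)) T : 𝓞 K) : K)).ncard = 3 ^ (ρ T + 1)) =
          (TT m X).filter fun S => CondT (RA m) S ∧
          GR (fun i => ρ (φ i)) (wT (WT φ) S) (UN S) := by
        refine filter_congr fun S hS => ?_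
        rw [adm_tuple j hj S]
        refine and_congr_right fun hc => ?_
        exact (ranks_tuple j (TT_Pq hS) φ (fun i => by rw [hφ2, hh]) hφ3 hc ρ).1.symm
      convert congrArg Finset.card h1
    simp only [hsel, hadm]
    have hprod : ∏ T ∈ powersetCard ((m - 3) / 2) (univ : Finset (Fin m)), cr (ρ T) =
        ∏ i, cr (ρ (φ i)) := by
      rw [← hh, ← Finset.prod_coe_sort, ← Equiv.prod_comp ψ, hφ]
    rw [hprod]
    exact hlim

end Pool.Agent.H451.JR
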