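import Mathlib
import Pool.Agent.H451.BB.Main
import Pool.Agent.H451.JR.Fin
import Pool.Agent.H451.JR.Def

/-!
# Project JR: all diagonal cubic hypersurfaces, by height
-/

set_option autoImplicit false

namespace Pool.Agent.H451.JR

open NumberField
open scoped Classical

open Pool.Agent.H451.CubT
open Pool.Agent.H451.JB (final_box TrivSel)

theorem pr_eq : pr = Pool.Agent.Y703.XL.cr := rfl

theorem final_all (K : Type) [Field K] [NumberField K] [IsCyclotomicExtension {3} ℚ K] (m : ℕ)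
    (hm : m = 3 ∨ m = 5 ∨ m = 7) :
    (∀ a : Fin m → 𝓞 K, (∀ i, a i ≠ 0) →
      Mot a ∧ ((∀ S : Finset (Fin m), S.card = (m - 3) / 2 → Good (DS a S)) → BB a)) ∧
    (∃ c : ℝ, 0 < c ∧ ∃ X₀ : ℕ, ∀ X : ℕ, X₀ ≤ X →
      c * ({a : Fin m → 𝓞 K | ∀ i, a i ≠ 0 ∧ Algebra.norm ℤ (a i) ≤ X}.ncard : ℝ) ≤
        ({a : Fin m → 𝓞 K | (∀ i, a i ≠ 0 ∧ Algebra.norm ℤ (a i) ≤ X) ∧ BB a}.ncard : ℝ)) ∧
    (∃ c : ℝ, 0 < c ∧ ∃ X₀ : ℕ, ∀ X : ℕ, X₀ ≤ X →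
      c * (X : ℝ) ^ m ≤ ({a : Fin m → 𝓞 K | (∀ i, Cls (a i) ∧ Algebra.norm ℤ (a i) ≤ X) ∧
        AdmA a}.ncard : ℝ)) ∧
    (∀ a : Fin m → 𝓞 K, (∀ i, Cls (a i)) → AdmA a → (SelRk a (fun _ => 0) → BB a) ∧
      ∀ S : Finset (Fin m), S.card = (m - 3) / 2 → ∃ r : ℕ,
        (Pool.Agent.XL6.SelK ((DS a S : 𝓞 K) : K)).ncard = 3 ^ (r + 1) ∧
        Module.finrank ℤ (E ((DS a S : 𝓞 K) : K)).toAffine.Point ≤ 2 * r) ∧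
    HasSum pr 1 ∧
    ∀ ρ : Finset (Fin m) → ℕ, Filter.Tendsto (fun X : ℕ =>
      ({a : Fin m → 𝓞 K | (∀ i, Cls (a i) ∧ Algebra.norm ℤ (a i) ≤ X) ∧ AdmA a ∧
        SelRk a ρ}.ncard : ℝ) /
      ({a : Fin m → 𝓞 K | (∀ i, Cls (a i) ∧ Algebra.norm ℤ (a i) ≤ X) ∧ AdmA a}.ncard : ℝ))
      Filter.atTop (nhds (∏ S ∈ Finset.powersetCard ((m - 3) / 2) (Finset.univ : Finset (Fin m)),
        pr (ρ S))) := by
  obtain ⟨⟨j, hj⟩, -⟩ := Pool.Agent.Y455.CTK.jex K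
  obtain ⟨h1, h2, h3, -⟩ := final_box Pool.Agent.H451.JB.t_DQ' K m hm
  obtain ⟨h4, h5⟩ := final_ranks K m hm
  refine ⟨fun a ha => ⟨mot j hm a, main j hj hm a ha⟩, h1, h2, fun a ha hA => ⟨fun hs => ?_,
    h4 a ha hA⟩, t_SUM, h5⟩
  exact h3 a ha hA fun S hS => hs S hS

end Pool.Agent.H451.JR
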